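import Pool.Agent.Helper97.DB.Dbl

/-!
# Extensions of representable lattices by congruence normal kernels

Let `π : L → K` be a surjective homomorphism of finite lattices. Suppose that for every join irreducible `p`
collapsed by `π` and every meet irreducible `m ≥ p` the prime quotients `p / p_*` and `m^* / m` generate
different congruences. If `K` is representable then `L` is representable.
-/

set_option autoImplicit false

namespace Pool.Agent.Helper97.DB

open Pool.Agent.H33WL Pool.Agent.Helper71.SL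

/-- Join dependency. -/
def JD {L : Type} [Lattice L] (p q : L) : Prop := p ≠ q ∧ ∃ x, p ≤ q ⊔ x ∧ ∀ r < q, ¬ p ≤ r ⊔ x

/-- The join irreducible elements collapsed by `π`. -/
def Coll {L K : Type} [Lattice L] [Lattice K] (π : LatticeHom L K) (p : L) : Prop :=
  SupIrred p ∧ ∃ r < p, π r = π p

section

variable {L K : Type} [Lattice L] [Lattice K] (π : LatticeHom L K)

/-- The image of `x` in the quotient belonging to the set `S`. -/
def im (S : Set L) (x : L) : K × Set L := (π x, {p | p ∈ S ∧ p ≤ x})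

theorem im_le (S : Set L) (x y : L) : im π S x ≤ im π S y ↔ π x ≤ π y ∧ ∀ p ∈ S, p ≤ x → p ≤ y := by
  constructor
  · rintro ⟨h1, h2⟩
    exact ⟨h1, fun p hp hx => (h2 ⟨hp, hx⟩).2⟩
  · rintro ⟨h1, h2⟩
    exact ⟨h1, fun p hp => ⟨hp.1, h2 p hp.1 hp.2⟩⟩

theorem im_mono (S : Set L) {x y : L} (h : x ≤ y) : im π S x ≤ im π S y :=
  (im_le π S x y).2 ⟨OrderHomClass.mono π h, fun _ _ hx => hx.trans h⟩

theorem im_inf (S : Set L) (x y : L) (h : im π S x ≤ im π S y) : im π S (x ⊓ y) = im π S x := by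
  refine le_antisymm (im_mono π S inf_le_left) ?_
  rw [im_le] at h ⊢
  refine ⟨?_, fun p hp hx => le_inf hx (h.2 p hp hx)⟩
  rw [map_inf]
  exact le_inf le_rfl h.1

theorem coll_of (u u' v : L) (hv : SupIrred v) (h1 : v ≤ u) (h2 : ¬ v ≤ u') (h : π u ≤ π u') : Coll π v := by
  refine ⟨hv, v ⊓ u', inf_le_left.lt_of_ne fun h3 => h2 (inf_eq_left.1 h3), ?_⟩
  rw [map_inf]
  exact inf_eq_left.2 ((OrderHomClass.mono π h1).trans h)

variable [Finite L]

/-- The relation defined by a closed set `S` is compatible with joins. -/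
theorem im_sup (S : Set L) (hS : ∀ p ∈ S, ∀ q, Coll π q → JD p q → q ∈ S) (u' u w : L)
    (h : im π S u ≤ im π S u') : im π S (u ⊔ w) ≤ im π S (u' ⊔ w) := by
  rw [im_le] at h ⊢
  refine ⟨?_, ?_⟩
  · rw [map_sup, map_sup]
    exact sup_le_sup_right h.1 _
  intro p hp hpu
  by_contra hcon
  let T : Set L := {v | v ≤ u ∧ ∃ W, u' ⊔ w ≤ W ∧ p ≤ W ⊔ v ∧ ¬ p ≤ W}
  have hT : T.Nonempty := by
    refine ⟨u, le_rfl, u' ⊔ w, le_rfl, hpu.trans ?_, hcon⟩
    exact sup_le le_sup_right (le_sup_right.trans le_sup_left)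
  obtain ⟨v, ⟨hvu, W, hW, hpW, hnW⟩, hmin⟩ :=
    (wellFounded_lt (α := L)).has_min T hT
  have hvW : ¬ v ≤ W := fun h1 => hnW (hpW.trans (sup_le le_rfl h1))
  have hirr : SupIrred v := by
    constructor
    · intro h1
      apply hvW
      have h2 : v ⊓ W ≤ v := inf_le_left
      exact (h1 h2).trans inf_le_right
    · intro b c hbc
      by_contra hne
      rw [not_or] at hne
      have hb : b < v := lt_of_le_of_ne (hbc ▸ le_sup_left) hne.1
      have hc : c < v := lt_of_le_of_ne (hbc ▸ le_sup_right) hne.2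
      by_cases h1 : p ≤ W ⊔ b
      · exact hmin b ⟨hb.le.trans hvu, W, hW, h1, hnW⟩ hb
      · refine hmin c ⟨hc.le.trans hvu, W ⊔ b, hW.trans le_sup_left, ?_, h1⟩ hc
        rw [sup_assoc, hbc]
        exact hpW
  have hvu' : ¬ v ≤ u' := fun h1 => hvW (h1.trans (le_sup_left.trans hW))
  have hcoll : Coll π v := coll_of π u u' v hirr hvu hvu' h.1
  have hpv : p ≠ v := by
    rintro rfl
    exact hvu' (h.2 p hp hvu)
  have hJD : JD p v := by
    refine ⟨hpv, W, by rwa [sup_comm], fun r hr h1 => ?_⟩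
    exact hmin r ⟨hr.le.trans hvu, W, hW, by rwa [sup_comm], hnW⟩ hr
  exact hvu' (h.2 v (hS p hp v hcoll hJD) hvu)


omit [Finite L] in
/-- A homomorphism which collapses `r` collapses every `q` which depends on `r`. -/
theorem coll_JD {M : Type} [Lattice M] (f : LatticeHom L M) {q r : L} (h : JD q r)
    (hr : ∃ r' < r, f r' = f r) : ∃ q' < q, f q' = f q := by
  obtain ⟨-, x, h1, h2⟩ := h
  obtain ⟨r', h3, h4⟩ := hr
  refine ⟨q ⊓ (r' ⊔ x), inf_le_left.lt_of_ne fun h5 => h2 r' h3 (inf_eq_left.1 h5), ?_⟩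
  rw [map_inf, map_sup, h4, ← map_sup, ← map_inf, inf_eq_left.2 h1]

/-- Dependency inside the set of the collapsed elements. -/
def Dp (p q : L) : Prop := Coll π p ∧ Coll π q ∧ JD p q

omit [Finite L] in
theorem coll_path {M : Type} [Lattice M] (f : LatticeHom L M) {q r : L} (h : Relation.ReflTransGen (Dp π) q r)
    (hr : ∃ r' < r, f r' = f r) : ∃ q' < q, f q' = f q := by
  induction h using Relation.ReflTransGen.head_induction_on with
  | refl => exact hr
  | head h1 _ ih => exact coll_JD f h1.2.2 ih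

/-- The quotients. -/
abbrev Q (S : Set L) : Type := {y : K × Set L // ∃ x : L, im π S x = y}

omit [Finite L] in
theorem irr_of_min (u v : L) (hv : ¬ v ≤ u) (hmin : ∀ r < v, r ≤ u) : SupIrred v := by
  constructor
  · intro h1
    exact hv ((h1 (inf_le_left : v ⊓ u ≤ v)).trans inf_le_right)
  · intro b c hbc
    by_contra hne
    rw [not_or] at hne
    exact hv (hbc ▸ sup_le (hmin b (lt_of_le_of_ne (hbc ▸ le_sup_left) hne.1))
      (hmin c (lt_of_le_of_ne (hbc ▸ le_sup_right) hne.2)))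

/-- The main step: at every point of the quotient either all or none of the elements of a component lie
below. -/
theorem all_or_none
    (hcn : ∀ p m : L, SupIrred p → InfIrred m → p ≤ m → (∃ r < p, π r = π p) →
      ∃ (M : Type) (_ : Lattice M) (f : LatticeHom L M),
        ¬ ((∃ r < p, f r = f p) ↔ ∃ r, m < r ∧ f r = f m))
    (S S0 : Set L) (hS0 : ∀ p ∈ S0, ∀ q ∈ S0, Relation.ReflTransGen (Dp π) p q) (hsub : S0 ⊆ S)
    (hcoll : ∀ p ∈ S, Coll π p) (hS : ∀ p ∈ S, ∀ q, Coll π q → JD p q → q ∈ S)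
    (hS' : ∀ p ∈ S \ S0, ∀ q, Coll π q → JD p q → q ∈ S \ S0)
    (x p q : L) (hp : p ∈ S0) (hpx : p ≤ x) (hq : q ∈ S0) (hqx : im π (S \ S0) q ≤ im π (S \ S0) x) :
    q ≤ x := by
  by_contra hcon
  obtain ⟨m, ⟨hxm, hqm⟩, hmax⟩ := (wellFounded_gt (α := L)).has_min {m | x ≤ m ∧ ¬ q ≤ m} ⟨x, le_rfl, hcon⟩
  have hup : ∀ y, m < y → q ≤ y := by
    intro y hy
    by_contra h1
    exact hmax y ⟨hxm.trans hy.le, h1⟩ hy
  have hirr : InfIrred m := by
    constructor
    · intro h1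
      exact hqm (le_sup_right.trans (h1 (le_sup_left : m ≤ m ⊔ q)))
    · intro b c hbc
      by_contra hne
      rw [not_or] at hne
      exact hqm (hbc ▸ le_inf (hup b (lt_of_le_of_ne (hbc ▸ inf_le_left) (Ne.symm hne.1)))
        (hup c (lt_of_le_of_ne (hbc ▸ inf_le_right) (Ne.symm hne.2))))
  obtain ⟨r, ⟨hrq, hrm⟩, hmin⟩ := (wellFounded_lt (α := L)).has_min {r | r ≤ m ⊔ q ∧ ¬ r ≤ m}
    ⟨q, le_sup_right, hqm⟩
  have hlow : ∀ r' < r, r' ≤ m := by
    intro r' hr'
    by_contra h1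
    exact hmin r' ⟨hr'.le.trans hrq, h1⟩ hr'
  have hrirr : SupIrred r := irr_of_min m r hrm hlow
  have h1 : im π (S \ S0) (q ⊔ m) ≤ im π (S \ S0) (m ⊔ m) :=
    im_sup π (S \ S0) hS' m q m (hqx.trans (im_mono π _ hxm))
  rw [sup_idem, sup_comm, im_le] at h1
  have hrcoll : Coll π r := coll_of π (m ⊔ q) m r hrirr hrq hrm h1.1
  have hrS' : r ∉ S \ S0 := fun h2 => hrm (h1.2 r h2 hrq)
  have hrS : r ∈ S := by
    by_cases hqr : q = r
    · rw [← hqr]
      exact hsub hq
    · refine hS q (hsub hq) r hrcoll ⟨hqr, m, ?_, ?_⟩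
      · refine hup _ (lt_of_le_of_ne le_sup_right fun h2 => hrm ?_)
        rw [h2]
        exact le_sup_left
      · intro r' hr' h2
        rw [sup_eq_right.2 (hlow r' hr')] at h2
        exact hqm h2
  have hrS0 : r ∈ S0 := by
    by_contra h2
    exact hrS' ⟨hrS, h2⟩
  obtain ⟨M, _, f, hf⟩ := hcn p m (hcoll p (hsub hp)).1 hirr (hpx.trans hxm) (hcoll p (hsub hp)).2
  apply hf
  constructor
  · intro h2
    obtain ⟨r'', h3, h4⟩ := coll_path π f (hS0 r hrS0 p hp) h2
    refine ⟨m ⊔ r, lt_of_le_of_ne le_sup_left fun h5 => hrm ?_, ?_⟩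
    · rw [h5]
      exact le_sup_right
    · rw [map_sup, ← h4, ← map_sup, sup_eq_left.2 (hlow r'' h3)]
  · rintro ⟨y, hy, hfy⟩
    refine coll_path π f (hS0 p hp r hrS0) ⟨r ⊓ m, inf_le_left.lt_of_ne fun h5 => hrm (inf_eq_left.1 h5), ?_⟩
    have h2 : r ≤ y := hrq.trans (sup_le hy.le (hup y hy))
    rw [map_inf, ← hfy, ← map_inf, inf_eq_left.2 h2]

theorem step
    (hcn : ∀ p m : L, SupIrred p → InfIrred m → p ≤ m → (∃ r < p, π r = π p) →
      ∃ (M : Type) (_ : Lattice M) (f : LatticeHom L M),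
        ¬ ((∃ r < p, f r = f p) ↔ ∃ r, m < r ∧ f r = f m))
    (S S0 : Set L) (hS0 : ∀ p ∈ S0, ∀ q ∈ S0, Relation.ReflTransGen (Dp π) p q) (hsub : S0 ⊆ S)
    (hcoll : ∀ p ∈ S, Coll π p) (hS : ∀ p ∈ S, ∀ q, Coll π q → JD p q → q ∈ S)
    (hS' : ∀ p ∈ S \ S0, ∀ q, Coll π q → JD p q → q ∈ S \ S0)
    (hrep : Representable (Q π (S \ S0))) : Representable (Q π S) := by
  classical
  let U : Set (Q π (S \ S0)) := {y | ∃ p ∈ S0, im π (S \ S0) p ≤ y.1}
  let U' : Set (Q π (S \ S0)) := {y | ∀ x, im π (S \ S0) x = y.1 → ∃ p ∈ S0, p ≤ x}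
  have hU : IsUpperSet U := by
    rintro y y' h ⟨p, hp, h1⟩
    exact ⟨p, hp, h1.trans h⟩
  have hU' : IsUpperSet U' := by
    rintro ⟨_, x, rfl⟩ ⟨_, x', rfl⟩ hle h x'' hx''
    have h1 : im π (S \ S0) (x ⊓ x'') = im π (S \ S0) x :=
      im_inf π (S \ S0) x x'' (by rw [hx'']; exact hle)
    obtain ⟨p, hp, h2⟩ := h _ h1
    exact ⟨p, hp, h2.trans inf_le_right⟩
  have hUU : U' ⊆ U := by
    rintro ⟨_, x, rfl⟩ h
    obtain ⟨p, hp, h1⟩ := h x rfl
    exact ⟨p, hp, im_mono π _ h1⟩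
  have h1 := rep_dbl hrep U U' hU hU' hUU
  let W : Type := {p : Q π (S \ S0) × Prop // (p.1 ∈ U' → p.2) ∧ (p.2 → p.1 ∈ U)}
  let g0 : L → W := fun x => ⟨(⟨im π (S \ S0) x, x, rfl⟩, ∃ p ∈ S0, p ≤ x), fun h => h x rfl,
    fun ⟨p, hp, h⟩ => ⟨p, hp, im_mono π _ h⟩⟩
  have hg0 : ∀ x y, g0 x ≤ g0 y ↔ im π S x ≤ im π S y := by
    intro x y
    constructor
    · rintro ⟨h2, h3⟩
      have h2' : im π (S \ S0) x ≤ im π (S \ S0) y := h2
      have h2'' := (im_le π _ x y).1 h2'
      rw [im_le]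
      refine ⟨h2''.1, fun q hq hqx => ?_⟩
      by_cases hq0 : q ∈ S0
      · obtain ⟨p, hp, hpy⟩ := h3 ⟨q, hq0, hqx⟩
        exact all_or_none π hcn S S0 hS0 hsub hcoll hS hS' y p q hp hpy hq0
          ((im_mono π _ hqx).trans h2')
      · exact h2''.2 q ⟨hq, hq0⟩ hqx
    · intro h
      rw [im_le] at h
      refine ⟨(im_le π _ x y).2 ⟨h.1, fun p hp => h.2 p hp.1⟩, ?_⟩
      rintro ⟨p, hp, hpx⟩
      exact ⟨p, hp, h.2 p (hsub hp) hpx⟩
  have hsurj : Function.Surjective g0 := by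
    rintro ⟨⟨⟨_, x, rfl⟩, P⟩, h2, h3⟩
    by_cases hP : P
    · obtain ⟨q, hq, h4⟩ := h3 hP
      have h5 : im π (S \ S0) (q ⊔ x) ≤ im π (S \ S0) (x ⊔ x) := im_sup π _ hS' x q x h4
      rw [sup_idem] at h5
      have h6 : im π (S \ S0) (q ⊔ x) = im π (S \ S0) x := le_antisymm h5 (im_mono π _ le_sup_right)
      refine ⟨q ⊔ x, Subtype.ext (Prod.ext (Subtype.ext h6) ?_)⟩
      show (∃ p ∈ S0, p ≤ q ⊔ x) = P
      rw [eq_iff_iff]
      exact ⟨fun _ => hP, fun _ => ⟨q, hq, le_sup_left⟩⟩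
    · have h4 : ¬ (⟨im π (S \ S0) x, x, rfl⟩ : Q π (S \ S0)) ∈ U' := fun h5 => hP (h2 h5)
      have h5 : ∃ x', im π (S \ S0) x' = im π (S \ S0) x ∧ ¬ ∃ p ∈ S0, p ≤ x' := by
        by_contra hcon
        apply h4
        intro x' hx'
        by_contra hx''
        exact hcon ⟨x', hx', hx''⟩
      obtain ⟨x', h6, h7⟩ := h5
      refine ⟨x', Subtype.ext (Prod.ext (Subtype.ext h6) ?_)⟩
      show (∃ p ∈ S0, p ≤ x') = P
      rw [eq_iff_iff]
      exact ⟨fun h8 => absurd h8 h7, fun h8 => absurd h8 hP⟩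
  let g : Q π S → W := fun y => g0 y.2.choose
  have hg : ∀ y y' : Q π S, g y ≤ g y' ↔ y ≤ y' := by
    intro y y'
    show g0 _ ≤ g0 _ ↔ _
    rw [hg0, y.2.choose_spec, y'.2.choose_spec]
    exact Iff.rfl
  have hgs : Function.Surjective g := by
    intro w
    obtain ⟨x, rfl⟩ := hsurj w
    refine ⟨⟨im π S x, x, rfl⟩, ?_⟩
    have h2 := (⟨im π S x, x, rfl⟩ : Q π S).2.choose_spec
    refine le_antisymm ?_ ?_
    · exact (hg0 _ _).2 h2.le
    · exact (hg0 _ _).2 h2.ge
  have hgi : Function.Injective g := by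
    intro y y' h
    exact le_antisymm ((hg y y').1 h.le) ((hg y' y).1 h.ge)
  let e : Q π S ≃o W :=
    { toEquiv := Equiv.ofBijective g ⟨hgi, hgs⟩
      map_rel_iff' := by
        intro x y
        exact hg x y }
  exact rep_of_iso e.symm h1

theorem ext_aux (hK : Representable {k : K // ∃ x, π x = k})
    (hcn : ∀ p m : L, SupIrred p → InfIrred m → p ≤ m → (∃ r < p, π r = π p) →
      ∃ (M : Type) (_ : Lattice M) (f : LatticeHom L M),
        ¬ ((∃ r < p, f r = f p) ↔ ∃ r, m < r ∧ f r = f m)) :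
    ∀ (n : ℕ) (S : Set L), S.ncard = n → (∀ p ∈ S, Coll π p) →
      (∀ p ∈ S, ∀ q, Coll π q → JD p q → q ∈ S) → Representable (Q π S) := by
  intro n
  induction n using Nat.strong_induction_on with
  | _ n ih =>
    intro S hS hcoll hcl
    rcases Set.eq_empty_or_nonempty S with hemp | hne
    · subst hemp
      have him : ∀ x y : L, im π ∅ x ≤ im π ∅ y ↔ π x ≤ π y := by
        intro x y
        rw [im_le]
        exact ⟨fun h => h.1, fun h => ⟨h, fun p hp => absurd hp (Set.notMem_empty p)⟩⟩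
      let g : Q π ∅ → {k : K // ∃ x, π x = k} := fun y => ⟨y.1.1, y.2.imp fun x hx => congrArg Prod.fst hx⟩
      have hg : ∀ y y', g y ≤ g y' ↔ y ≤ y' := by
        rintro ⟨_, x, rfl⟩ ⟨_, x', rfl⟩
        exact (him x x').symm
      have hgs : Function.Surjective g := by
        rintro ⟨k, x, hx⟩
        exact ⟨⟨im π ∅ x, x, rfl⟩, Subtype.ext hx⟩
      have hgi : Function.Injective g := by
        intro y y' h
        exact le_antisymm ((hg y y').1 h.le) ((hg y' y).1 h.ge)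
      let e : Q π ∅ ≃o {k : K // ∃ x, π x = k} :=
        { toEquiv := Equiv.ofBijective g ⟨hgi, hgs⟩
          map_rel_iff' := by
            intro x y
            exact hg x y }
      exact rep_of_iso e.symm hK
    · let D : L → Set L := fun q => {p | p ∈ S ∧ Relation.ReflTransGen (Dp π) p q}
      obtain ⟨q, hq, hmin⟩ := (measure fun q : L => (D q).ncard).wf.has_min S hne
      have hback : ∀ p ∈ S, Relation.ReflTransGen (Dp π) p q → Relation.ReflTransGen (Dp π) q p := by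
        intro p hp hpq
        have h1 : D p ⊆ D q := fun r hr => ⟨hr.1, hr.2.trans hpq⟩
        have h2 : ¬ (D p).ncard < (D q).ncard := hmin p hp
        have h3 : D p = D q := Set.eq_of_subset_of_ncard_le h1 (by omega) (Set.toFinite _)
        have h4 : q ∈ D p := by
          rw [h3]
          exact ⟨hq, Relation.ReflTransGen.refl⟩
        exact h4.2
      have hsub : D q ⊆ S := fun p hp => hp.1
      have hS0 : ∀ p ∈ D q, ∀ p' ∈ D q, Relation.ReflTransGen (Dp π) p p' := by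
        intro p hp p' hp'
        exact hp.2.trans (hback p' hp'.1 hp'.2)
      have hcl' : ∀ p ∈ S \ D q, ∀ q', Coll π q' → JD p q' → q' ∈ S \ D q := by
        intro p hp q' hq' hJ
        refine ⟨hcl p hp.1 q' hq' hJ, fun h1 => ?_⟩
        exact hp.2 ⟨hp.1, Relation.ReflTransGen.head ⟨hcoll p hp.1, hq', hJ⟩ h1.2⟩
      have hcard : (S \ D q).ncard < n := by
        rw [← hS]
        exact Set.ncard_lt_ncard ⟨Set.sdiff_subset, fun h1 => (h1 hq).2 ⟨hq, Relation.ReflTransGen.refl⟩⟩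
          (Set.toFinite S)
      exact step π hcn S (D q) hS0 hsub hcoll hcl hcl'
        (ih _ hcard (S \ D q) rfl (fun p hp => hcoll p hp.1) hcl')

/-- The extension theorem. -/
theorem rep_ext (hK : Representable {k : K // ∃ x, π x = k})
    (hcn : ∀ p m : L, SupIrred p → InfIrred m → p ≤ m → (∃ r < p, π r = π p) →
      ∃ (M : Type) (_ : Lattice M) (f : LatticeHom L M),
        ¬ ((∃ r < p, f r = f p) ↔ ∃ r, m < r ∧ f r = f m)) :
    Representable L := by
  let S : Set L := {p | Coll π p}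
  have h1 : Representable (Q π S) := ext_aux π hK hcn _ S rfl (fun p hp => hp) (fun _ _ q hq _ => hq)
  have him : ∀ x y : L, im π S x ≤ im π S y ↔ x ≤ y := by
    intro x y
    refine ⟨fun h => ?_, im_mono π S⟩
    rw [im_le] at h
    by_contra hcon
    obtain ⟨v, ⟨hvx, hvy⟩, hmin⟩ := (wellFounded_lt (α := L)).has_min {v | v ≤ x ∧ ¬ v ≤ y} ⟨x, le_rfl, hcon⟩
    have hirr : SupIrred v := by
      refine irr_of_min y v hvy fun r hr => ?_
      by_contra h2
      exact hmin r ⟨hr.le.trans hvx, h2⟩ hr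
    exact hvy (h.2 v (coll_of π x y v hirr hvx hvy h.1) hvx)
  let g : L → Q π S := fun x => ⟨im π S x, x, rfl⟩
  have hg : ∀ x y, g x ≤ g y ↔ x ≤ y := him
  have hgs : Function.Surjective g := by
    rintro ⟨_, x, rfl⟩
    exact ⟨x, rfl⟩
  have hgi : Function.Injective g := by
    intro y y' h
    exact le_antisymm ((hg y y').1 h.le) ((hg y' y).1 h.ge)
  let e : L ≃o Q π S :=
    { toEquiv := Equiv.ofBijective g ⟨hgi, hgs⟩
      map_rel_iff' := by
        intro x y
        exact hg x y }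
  exact rep_of_iso e.symm h1

end

end Pool.Agent.Helper97.DB
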