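import Pool.Agent.Helper71.SL.Dual

/-!
# Semidirect products of congruence lattices

`A`, `B` finite sets, `C` a finite set of chains. The chain `c` runs from the point `al c` of `A` to the
point `be c` of `A`; it consists of `3 * N` copies of `B`; the last point `t (yy c) k` of the copy number `k` is
glued to the first point `s (k + 1)` of the next one, and the pairs (first point, last point) run three times
through all pairs of the equivalence `yy c`. For equivalences `y` on `B` and `z` on `A` let `E y z` be the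
equivalence generated by the gluing, by `y` on every copy and by `z` on `A`.
-/

set_option autoImplicit false

namespace Pool.Agent.Helper97.DB

/-- The data of the construction. -/
structure Dat (A B : Type) where
  /-- the chains -/
  C : Type
  /-- the equivalence whose pairs are the types of the links -/
  yy : C → Setoid B
  /-- start of a chain -/
  al : C → A
  /-- end of a chain -/
  be : C → A
  /-- length of a period -/
  N : ℕ
  /-- first point of a link -/
  s : ℕ → B
  /-- last point of a link -/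
  t : Setoid B → ℕ → B
  hst : ∀ (y : Setoid B) (k : ℕ), y.r (s k) (t y k)
  hper : ∀ (y : Setoid B) (u v : B), y.r u v → ∀ m < 3, ∃ k, m * N ≤ k ∧ k < (m + 1) * N ∧ s k = u ∧ t y k = v

variable {A B : Type} (D : Dat A B)

/-- The set on which the new algebra lives, before the gluing. -/
abbrev X : Type := A ⊕ (D.C × Fin (3 * D.N) × B)

variable {D}

/-- The point `b` of the copy number `k` of the chain `c`; the end of the chain if `k` is too large. -/
def pt (c : D.C) (k : ℕ) (b : B) : X D :=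
  if h : k < 3 * D.N then Sum.inr (c, ⟨k, h⟩, b) else Sum.inl (D.be c)

theorem pt_lt (c : D.C) {k : ℕ} (h : k < 3 * D.N) (b : B) : pt c k b = Sum.inr (c, ⟨k, h⟩, b) := dif_pos h

theorem pt_ge (c : D.C) {k : ℕ} (h : 3 * D.N ≤ k) (b : B) : pt c k b = Sum.inl (D.be c) :=
  dif_neg (not_lt.2 h)

/-- Generators of the equivalence `E y z`. -/
inductive Gen (y : Setoid B) (z : Setoid A) : X D → X D → Prop
  | base {a a' : A} : z.r a a' → Gen y z (Sum.inl a) (Sum.inl a')
  | copy (c : D.C) (k : Fin (3 * D.N)) {b b' : B} : y.r b b' → Gen y z (Sum.inr (c, k, b)) (Sum.inr (c, k, b'))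
  | first (c : D.C) : Gen y z (Sum.inl (D.al c)) (pt c 0 (D.s 0))
  | next (c : D.C) (k : ℕ) : k < 3 * D.N → Gen y z (pt c k (D.t (D.yy c) k)) (pt c (k + 1) (D.s (k + 1)))

/-- The equivalence of a pair. -/
def E (y : Setoid B) (z : Setoid A) : Setoid (X D) := Relation.EqvGen.setoid (Gen y z)

theorem E_of {y : Setoid B} {z : Setoid A} {x x' : X D} (h : Gen y z x x') : (E y z).r x x' :=
  Relation.EqvGen.rel _ _ h

theorem E_le {y : Setoid B} {z : Setoid A} {Θ : Setoid (X D)} (h : ∀ x x', Gen y z x x' → Θ.r x x') :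
    E y z ≤ Θ := by
  intro x x' hx
  have h1 : Relation.EqvGen (Gen y z) x x' := hx
  induction h1 with
  | rel a b hab => exact h a b hab
  | refl a => exact Θ.refl a
  | symm a b _ ih => exact Θ.symm (ih (by assumption))
  | trans a b c _ _ ih1 ih2 => exact Θ.trans (ih1 (by assumption)) (ih2 (by assumption))

theorem E_map {Y : Type} {y : Setoid B} {z : Setoid A} (R : Setoid Y) (f : X D → Y)
    (h : ∀ x x', Gen y z x x' → R.r (f x) (f x')) {x x' : X D} (hx : (E y z).r x x') : R.r (f x) (f x') :=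
  E_le (Θ := R.comap f) h hx

theorem Gen_mono {y y' : Setoid B} {z z' : Setoid A} (hy : y ≤ y') (hz : z ≤ z') {x x' : X D}
    (h : Gen y z x x') : Gen y' z' x x' := by
  cases h with
  | base h => exact .base (hz h)
  | copy c k h => exact .copy c k (hy h)
  | first c => exact .first c
  | next c k h => exact .next c k h

theorem E_mono {y y' : Setoid B} {z z' : Setoid A} (hy : y ≤ y') (hz : z ≤ z') :
    E (D := D) y z ≤ E y' z' := E_le fun _ _ h => E_of (Gen_mono hy hz h)

theorem E_copy {y : Setoid B} {z : Setoid A} (c : D.C) (k : ℕ) {b b' : B} (h : y.r b b') :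
    (E y z).r (pt c k b) (pt c k b') := by
  rcases lt_or_ge k (3 * D.N) with hk | hk
  · rw [pt_lt c hk, pt_lt c hk]
    exact E_of (.copy c _ h)
  · rw [pt_ge c hk, pt_ge c hk]

theorem E_path {y : Setoid B} {z : Setoid A} (c : D.C) (j : ℕ) (l : ℕ) (hjl : j < l) (hl : l ≤ 3 * D.N)
    (h : ∀ k, j < k → k < l → y.r (D.s k) (D.t (D.yy c) k)) :
    (E y z).r (pt c j (D.t (D.yy c) j)) (pt c l (D.s l)) := by
  induction l with
  | zero => omega
  | succ l ih =>
    rcases Nat.lt_or_ge j l with h1 | h1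
    · have h2 := ih h1 (by omega) fun k hk hk' => h k hk (by omega)
      have h3 : (E y z).r (pt c l (D.s l)) (pt c l (D.t (D.yy c) l)) := E_copy c l (h l h1 (by omega))
      exact (E y z).trans (h2) ((E y z).trans h3 (E_of (.next c l (by omega))))
    · have : j = l := by omega
      subst this
      exact E_of (.next c j (by omega))

theorem E_left {y : Setoid B} {z : Setoid A} (c : D.C) (l : ℕ) (hl : l ≤ 3 * D.N)
    (h : ∀ k, k < l → y.r (D.s k) (D.t (D.yy c) k)) :
    (E y z).r (Sum.inl (D.al c)) (pt c l (D.s l)) := by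
  induction l with
  | zero => exact E_of (.first c)
  | succ l ih =>
    have h2 := ih (by omega) fun k hk => h k (by omega)
    have h3 : (E y z).r (pt c l (D.s l)) (pt c l (D.t (D.yy c) l)) := E_copy c l (h l (by omega))
    exact (E y z).trans (h2) ((E y z).trans h3 (E_of (.next c l (by omega))))

theorem E_right {y : Setoid B} {z : Setoid A} (c : D.C) (j : ℕ) (hj : j < 3 * D.N)
    (h : ∀ k, j < k → k < 3 * D.N → y.r (D.s k) (D.t (D.yy c) k)) :
    (E y z).r (pt c j (D.t (D.yy c) j)) (Sum.inl (D.be c)) := by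
  have h1 := E_path (z := z) c j (3 * D.N) hj le_rfl h
  rwa [pt_ge c le_rfl] at h1

/-! ### The retractions -/

/-- Two positions with reversed types. -/
def Rv (c : D.C) (i i' : ℕ) : Prop :=
  i < i' ∧ i' < 3 * D.N ∧ D.t (D.yy c) i = D.s i' ∧ D.s i = D.t (D.yy c) i'

open Classical in
/-- Values of the retraction on the chain. -/
noncomputable def V (c : D.C) (i i' k : ℕ) (b : B) : B :=
  if k = i ∨ k = i' then b else if i < k ∧ k < i' then D.t (D.yy c) i else D.s i

theorem V_l (c : D.C) {i i' k : ℕ} (b : B) (h1 : k < i) (h2 : i < i') : V c i i' k b = D.s i := by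
  unfold V
  rw [if_neg (by omega), if_neg (by omega)]

theorem V_m (c : D.C) {i i' k : ℕ} (b : B) (h1 : i < k) (h2 : k < i') : V c i i' k b = D.t (D.yy c) i := by
  unfold V
  rw [if_neg (by omega), if_pos (by omega)]

theorem V_r (c : D.C) {i i' k : ℕ} (b : B) (h1 : i < i') (h2 : i' < k) : V c i i' k b = D.s i := by
  unfold V
  rw [if_neg (by omega), if_neg (by omega)]

theorem V_e (c : D.C) {i i' : ℕ} (b : B) : V c i i' i b = b := by
  unfold V
  rw [if_pos (by omega)]

theorem V_e' (c : D.C) {i i' : ℕ} (b : B) : V c i i' i' b = b := by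
  unfold V
  rw [if_pos (by omega)]

open Classical in
/-- The retraction. -/
noncomputable def rt (c : D.C) (i i' : ℕ) : X D → B
  | Sum.inl _ => D.s i
  | Sum.inr (c', k, b) => if c' = c then V c i i' k b else D.s i

theorem rt_inl (c : D.C) (i i' : ℕ) (a : A) : rt c i i' (Sum.inl a) = D.s i := rfl

open Classical in
theorem rt_pt (c : D.C) {i i' : ℕ} (h : Rv c i i') {k : ℕ} (b : B) (hk : k ≤ 3 * D.N) :
    rt c i i' (pt c k b) = V c i i' k b := by
  obtain ⟨h1, h2, -, -⟩ := h
  rcases lt_or_ge k (3 * D.N) with hk | hk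
  · rw [pt_lt c hk]
    show (if c = c then V c i i' k b else D.s i) = _
    rw [if_pos rfl]
  · rw [pt_ge c hk, V_r c b h1 (by omega)]
    rfl

open Classical in
theorem rt_ne {c c' : D.C} (hc : c' ≠ c) (i i' : ℕ) (k : ℕ) (b : B) :
    rt c i i' (pt c' k b) = D.s i := by
  rcases lt_or_ge k (3 * D.N) with hk | hk
  · rw [pt_lt c' hk]
    show (if c' = c then V c i i' k b else D.s i) = _
    rw [if_neg hc]
  · rw [pt_ge c' hk]
    rfl

theorem rt_gen {y : Setoid B} {z : Setoid A} (c : D.C) {i i' : ℕ} (h : Rv c i i') (x x' : X D)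
    (hx : Gen y z x x') : y.r (rt c i i' x) (rt c i i' x') := by
  cases hx with
  | base _ => exact y.refl _
  | copy c' k hb =>
    by_cases hc : c' = c
    · subst hc
      rw [← pt_lt c' k.2, ← pt_lt c' k.2, rt_pt c' h _ k.2.le, rt_pt c' h _ k.2.le]
      unfold V
      split_ifs
      · exact hb
      · exact y.refl _
      · exact y.refl _
    · rw [← pt_lt c' k.2, ← pt_lt c' k.2, rt_ne hc, rt_ne hc]
  | first c' =>
    by_cases hc : c' = c
    · subst hc
      rw [rt_inl, rt_pt c' h _ (by omega)]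
      obtain ⟨h1, h2, -, -⟩ := h
      rcases Nat.eq_zero_or_pos i with h0 | h0
      · subst h0
        rw [V_e]
      · rw [V_l c' _ h0 h1]
    · rw [rt_ne hc, rt_inl]
  | next c' k hk =>
    by_cases hc : c' = c
    · subst hc
      rw [rt_pt c' h _ hk.le, rt_pt c' h _ (by omega)]
      obtain ⟨h1, h2, h3, h4⟩ := h
      have key : V c' i i' k (D.t (D.yy c') k) = V c' i i' (k + 1) (D.s (k + 1)) := by
        rcases Nat.lt_trichotomy k i with h5 | h5 | h5
        · rw [V_l c' _ h5 h1]
          rcases Nat.lt_or_ge (k + 1) i with h6 | h6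
          · rw [V_l c' _ h6 h1]
          · have : k + 1 = i := by omega
            rw [this, V_e]
        · subst h5
          rw [V_e]
          rcases Nat.lt_or_ge (k + 1) i' with h6 | h6
          · rw [V_m c' _ (by omega) h6]
          · have : k + 1 = i' := by omega
            rw [this, V_e', h3]
        · rcases Nat.lt_trichotomy k i' with h6 | h6 | h6
          · rw [V_m c' _ h5 h6]
            rcases Nat.lt_or_ge (k + 1) i' with h7 | h7
            · rw [V_m c' _ (by omega) h7]
            · have : k + 1 = i' := by omega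
              rw [this, V_e', h3]
          · subst h6
            rw [V_e', V_r c' _ h1 (by omega), h4]
          · rw [V_r c' _ h1 h6, V_r c' _ h1 (by omega)]
      rw [key]
    · rw [rt_ne hc, rt_ne hc]

/-! ### Separation -/

theorem exists_rev (c : D.C) (i m : ℕ) (hm : m < 3) : ∃ k, m * D.N ≤ k ∧ k < (m + 1) * D.N ∧
    D.s k = D.t (D.yy c) i ∧ D.t (D.yy c) k = D.s i :=
  D.hper (D.yy c) _ _ ((D.yy c).symm (D.hst (D.yy c) i)) m hm

theorem sep1 {y : Setoid B} (c : D.C) {j l : ℕ} {b b' : B} (hjl : j < l) (hl : l ≤ 3 * D.N)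
    (hQ : ∀ i i', Rv c i i' → y.r (V c i i' j b) (V c i i' l b'))
    (m : ℕ) (hm : m < 3) (hb : (m + 1) * D.N ≤ j ∨ l < m * D.N) :
    y.r b (D.t (D.yy c) j) ∧ (∀ k, j < k → k < l → y.r (D.s k) (D.t (D.yy c) k)) ∧
      (l < 3 * D.N → y.r (D.s l) b') := by
  have hm3 : (m + 1) * D.N ≤ 3 * D.N := Nat.mul_le_mul_right _ (by omega)
  refine ⟨?_, ?_, ?_⟩
  · obtain ⟨k', h1, h2, h3, h4⟩ := exists_rev c j m hm
    rcases hb with hb | hb
    · have h5 := hQ k' j ⟨by omega, by omega, by rw [h4], h3⟩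
      rw [V_e', V_r c _ (by omega) hjl, h3] at h5
      exact h5
    · have h5 := hQ j k' ⟨by omega, by omega, h3.symm, h4.symm⟩
      rw [V_e, V_m c _ hjl (by omega)] at h5
      exact h5
  · intro k hk hk'
    obtain ⟨k', h1, h2, h3, h4⟩ := exists_rev c k m hm
    rcases hb with hb | hb
    · have h5 := hQ k' k ⟨by omega, by omega, by rw [h4], h3⟩
      rw [V_m c _ (by omega) hk, V_r c _ (by omega) hk', h3, h4] at h5
      exact h5
    · have h5 := hQ k k' ⟨by omega, by omega, h3.symm, h4.symm⟩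
      rw [V_l c _ hk (by omega), V_m c _ hk' (by omega)] at h5
      exact h5
  · intro hl'
    obtain ⟨k', h1, h2, h3, h4⟩ := exists_rev c l m hm
    rcases hb with hb | hb
    · have h5 := hQ k' l ⟨by omega, by omega, by rw [h4], h3⟩
      rw [V_e', V_m c _ (by omega) hjl, h4] at h5
      exact h5
    · have h5 := hQ l k' ⟨by omega, by omega, h3.symm, h4.symm⟩
      rw [V_e, V_l c _ hjl (by omega)] at h5
      exact h5

theorem sep2 {y : Setoid B} (c : D.C) {j l : ℕ} {b b' : B}
    (hQ : ∀ i i', Rv c i i' → y.r (V c i i' j b) (V c i i' l b'))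
    (m : ℕ) (hm : m < 3) (hb1 : j < m * D.N) (hb2 : (m + 1) * D.N ≤ l) :
    y.r b (D.s j) ∧ (∀ k, k < j → y.r (D.s k) (D.t (D.yy c) k)) ∧
      (∀ k, l < k → k < 3 * D.N → y.r (D.s k) (D.t (D.yy c) k)) ∧
      (l < 3 * D.N → y.r b' (D.t (D.yy c) l)) := by
  have hm3 : (m + 1) * D.N ≤ 3 * D.N := Nat.mul_le_mul_right _ (by omega)
  refine ⟨?_, ?_, ?_, ?_⟩
  · obtain ⟨k', h1, h2, h3, h4⟩ := exists_rev c j m hm
    have h5 := hQ j k' ⟨by omega, by omega, h3.symm, h4.symm⟩
    rw [V_e, V_r c _ (by omega) (by omega)] at h5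
    exact h5
  · intro k hk
    obtain ⟨k', h1, h2, h3, h4⟩ := exists_rev c k m hm
    have h5 := hQ k k' ⟨by omega, by omega, h3.symm, h4.symm⟩
    rw [V_m c _ hk (by omega), V_r c _ (by omega) (by omega)] at h5
    exact y.symm h5
  · intro k hk hk'
    obtain ⟨k', h1, h2, h3, h4⟩ := exists_rev c k m hm
    have h5 := hQ k' k ⟨by omega, by omega, by rw [h4], h3⟩
    rw [V_l c _ (by omega) (by omega), V_m c _ (by omega) hk, h3, h4] at h5
    exact y.symm h5
  · intro hl'
    obtain ⟨k', h1, h2, h3, h4⟩ := exists_rev c l m hm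
    have h5 := hQ k' l ⟨by omega, by omega, by rw [h4], h3⟩
    rw [V_l c _ (by omega) (by omega), V_e', h3] at h5
    exact y.symm h5

theorem exists_block (N j l : ℕ) (hjl : j ≤ l) : ∃ m < 3, ((m + 1) * N ≤ j ∨ l < m * N) ∨
    (j < m * N ∧ (m + 1) * N ≤ l) ∨ N = 0 := by
  rcases Nat.eq_zero_or_pos N with h0 | h0
  · exact ⟨0, by omega, Or.inr (Or.inr h0)⟩
  have hj : (j / N) * N ≤ j ∧ j < (j / N + 1) * N :=
    ⟨Nat.div_mul_le_self j N, Nat.lt_mul_of_div_lt (Nat.lt_succ_self _) h0⟩
  have hl : (l / N) * N ≤ l ∧ l < (l / N + 1) * N :=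
    ⟨Nat.div_mul_le_self l N, Nat.lt_mul_of_div_lt (Nat.lt_succ_self _) h0⟩
  have hle : j / N ≤ l / N := Nat.div_le_div_right hjl
  obtain ⟨m, hm, h1, h2⟩ : ∃ m < 3, m ≠ j / N ∧ m ≠ l / N := by
    by_cases h0 : (0 = j / N ∨ 0 = l / N)
    · by_cases h1 : (1 = j / N ∨ 1 = l / N)
      · exact ⟨2, by omega, by omega, by omega⟩
      · exact ⟨1, by omega, by omega, by omega⟩
    · exact ⟨0, by omega, by omega, by omega⟩
  refine ⟨m, hm, ?_⟩
  rcases Nat.lt_or_ge m (j / N) with h3 | h3
  · left; left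
    exact (Nat.mul_le_mul_right N h3).trans hj.1
  · rcases Nat.lt_or_ge (l / N) m with h4 | h4
    · left; right
      exact hl.2.trans_le (Nat.mul_le_mul_right N h4)
    · right; left
      exact ⟨hj.2.trans_le (Nat.mul_le_mul_right N (by omega)), (Nat.mul_le_mul_right N (by omega : m + 1 ≤ l / N)).trans hl.1⟩

theorem anchor {y : Setoid B} (z : Setoid A) (c : D.C) {j : ℕ} {b : B} (hj : j < 3 * D.N)
    (hQ : ∀ i i', Rv c i i' → y.r (V c i i' j b) (D.s i)) : ∃ a, (E y z).r (pt c j b) (Sum.inl a) := by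
  have hN : D.N ≠ 0 := by
    rintro h
    rw [h] at hj
    omega
  have hQ' : ∀ i i', Rv c i i' → y.r (V c i i' j b) (V c i i' (3 * D.N) b) := by
    intro i i' h
    rw [V_r c _ h.1 h.2.1]
    exact hQ i i' h
  obtain ⟨m, hm, h | h | h⟩ := exists_block D.N j (3 * D.N) hj.le
  · obtain ⟨h1, h2, -⟩ := sep1 c hj le_rfl hQ' m hm h
    exact ⟨D.be c, (E y z).trans (E_copy c j h1) (E_right c j hj h2)⟩
  · obtain ⟨h1, h2, -, -⟩ := sep2 c hQ' m hm h.1 h.2
    exact ⟨D.al c, (E y z).trans (E_copy c j h1) ((E y z).symm (E_left c j hj.le h2))⟩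
  · exact absurd h hN

theorem sep_lt {y : Setoid B} (z : Setoid A) (c : D.C) {j l : ℕ} {b b' : B} (hjl : j < l)
    (hl : l < 3 * D.N) (hQ : ∀ i i', Rv c i i' → y.r (V c i i' j b) (V c i i' l b')) :
    (E y z).r (pt c j b) (pt c l b') ∨
      ((∃ a, (E y z).r (pt c j b) (Sum.inl a)) ∧ ∃ a, (E y z).r (pt c l b') (Sum.inl a)) := by
  have hN : D.N ≠ 0 := by
    rintro h
    rw [h] at hl
    omega
  obtain ⟨m, hm, h | h | h⟩ := exists_block D.N j l hjl.le
  · left
    obtain ⟨h1, h2, h3⟩ := sep1 c hjl hl.le hQ m hm h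
    exact (E y z).trans (E_copy c j h1)
      ((E y z).trans (E_path c j l hjl hl.le h2) (E_copy c l (h3 hl)))
  · right
    obtain ⟨h1, h2, h3, h4⟩ := sep2 c hQ m hm h.1 h.2
    exact ⟨⟨D.al c, (E y z).trans (E_copy c j h1) ((E y z).symm (E_left c j (hjl.trans hl).le h2))⟩,
      ⟨D.be c, (E y z).trans (E_copy c l (h4 hl)) (E_right c l hl h3)⟩⟩
  · exact absurd h hN

theorem sep_eq {y : Setoid B} (c : D.C) {j : ℕ} {b b' : B} (hj : j < 3 * D.N)
    (hQ : ∀ i i', Rv c i i' → y.r (V c i i' j b) (V c i i' j b')) : y.r b b' := by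
  have hN : D.N ≠ 0 := by
    rintro h
    rw [h] at hj
    omega
  obtain ⟨m, hm, h | h | h⟩ := exists_block D.N j j le_rfl
  · obtain ⟨k', h1, h2, h3, h4⟩ := exists_rev c j m hm
    have hm3 : (m + 1) * D.N ≤ 3 * D.N := Nat.mul_le_mul_right _ (by omega)
    rcases h with h | h
    · have h5 := hQ k' j ⟨by omega, by omega, by rw [h4], h3⟩
      rwa [V_e', V_e'] at h5
    · have h5 := hQ j k' ⟨by omega, by omega, h3.symm, h4.symm⟩
      rwa [V_e, V_e] at h5
  · exfalso
    have : m * D.N ≤ (m + 1) * D.N := Nat.mul_le_mul_right _ (by omega)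
    omega
  · exact absurd h hN

/-- Every pair which is not separated by the retractions is in `E y z` or both points are connected to
points of `A`. -/
theorem separation {y : Setoid B} (z : Setoid A) (w w' : X D)
    (hQ : ∀ c i i', Rv c i i' → y.r (rt c i i' w) (rt c i i' w')) :
    (E y z).r w w' ∨ ((∃ a, (E y z).r w (Sum.inl a)) ∧ ∃ a, (E y z).r w' (Sum.inl a)) := by
  rcases w with a | ⟨c, j, b⟩
  · rcases w' with a' | ⟨c', l, b'⟩
    · exact Or.inr ⟨⟨a, (E y z).refl _⟩, ⟨a', (E y z).refl _⟩⟩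
    · refine Or.inr ⟨⟨a, (E y z).refl _⟩, ?_⟩
      rw [← pt_lt c' l.2] at hQ ⊢
      refine anchor z c' l.2 fun i i' h => ?_
      have h1 := hQ c' i i' h
      rw [rt_inl, rt_pt c' h _ l.2.le] at h1
      exact y.symm h1
  · rcases w' with a' | ⟨c', l, b'⟩
    · refine Or.inr ⟨?_, ⟨a', (E y z).refl _⟩⟩
      rw [← pt_lt c j.2] at hQ ⊢
      refine anchor z c j.2 fun i i' h => ?_
      have h1 := hQ c i i' h
      rw [rt_inl, rt_pt c h _ j.2.le] at h1
      exact h1
    · rw [← pt_lt c j.2, ← pt_lt c' l.2] at hQ ⊢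
      by_cases hc : c' = c
      · subst hc
        have hQ' : ∀ i i', Rv c' i i' → y.r (V c' i i' j b) (V c' i i' l b') := by
          intro i i' h
          have h1 := hQ c' i i' h
          rwa [rt_pt c' h _ j.2.le, rt_pt c' h _ l.2.le] at h1
        rcases Nat.lt_trichotomy j.1 l.1 with h | h | h
        · exact sep_lt z c' h l.2 hQ'
        · left
          rw [← h] at hQ' ⊢
          exact E_copy c' _ (sep_eq c' j.2 hQ')
        · rcases sep_lt z c' h j.2 (fun i i' h => y.symm (hQ' i i' h)) with h1 | ⟨h1, h2⟩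
          · exact Or.inl ((E y z).symm h1)
          · exact Or.inr ⟨h2, h1⟩
      · right
        constructor
        · refine anchor z c j.2 fun i i' h => ?_
          have h1 := hQ c i i' h
          rwa [rt_pt c h _ j.2.le, rt_ne hc] at h1
        · refine anchor z c' l.2 fun i i' h => ?_
          have h1 := hQ c' i i' h
          rw [rt_pt c' h _ l.2.le, rt_ne (Ne.symm hc)] at h1
          exact y.symm h1

end Pool.Agent.Helper97.DB
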