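import Pool.Agent.Helper97.DB.Int

/-!
# Doubling of convex sets

Let `P` be representable and let `U' ⊆ U` be upper sets of `P`; the set `U \ U'` is an arbitrary convex set. The
lattice obtained from `P` by doubling this convex set (Day) is representable.
-/

set_option autoImplicit false

namespace Pool.Agent.Helper97.DB

open Pool.Agent.H33WL Pool.Agent.Helper71.SL

theorem rep_Prop : Representable Prop := by
  classical
  let e : Prop ≃o {r : Setoid Bool // ∀ f ∈ (∅ : Set (Bool → Bool)), ∀ x y : Bool, r.r x y → r.r (f x) (f y)} :=
    { toFun := fun P => ⟨⟨fun a b => a = b ∨ P, ⟨fun _ => Or.inl rfl, fun h => h.imp Eq.symm id,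
          fun h h' => by
            rcases h with h | h
            · rcases h' with h' | h'
              · exact Or.inl (h.trans h')
              · exact Or.inr h'
            · exact Or.inr h⟩⟩, fun f hf => absurd hf (Set.notMem_empty f)⟩
      invFun := fun r => r.1.r true false
      left_inv := fun P => by
        show (true = false ∨ P) = P
        simp
      right_inv := fun r => by
        apply Subtype.ext
        apply Setoid.ext
        intro a b
        show (a = b ∨ r.1.r true false) ↔ r.1.r a b
        constructor
        · rintro (rfl | h)
          · exact r.1.refl _
          · cases a <;> cases b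
            · exact r.1.refl _
            · exact r.1.symm h
            · exact h
            · exact r.1.refl _
        · intro h
          cases a <;> cases b
          · exact Or.inl rfl
          · exact Or.inr (r.1.symm h)
          · exact Or.inr h
          · exact Or.inl rfl
      map_rel_iff' := by
        intro P Q
        constructor
        · intro h hP
          have h1 : true = false ∨ Q := h (Or.inr hP : true = false ∨ P)
          rcases h1 with h1 | h1
          · exact absurd h1 (by decide)
          · exact h1
        · intro h a b hab
          rcases hab with hab | hab
          · exact Or.inl hab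
          · exact Or.inr (h hab) }
  exact rep_unary Bool ∅ e

/-- Doubling of a convex set. -/
theorem rep_dbl {P : Type} [PartialOrder P] (hP : Representable P) (U U' : Set P) (hU : IsUpperSet U)
    (hU' : IsUpperSet U') (hsub : U' ⊆ U) :
    Representable {p : P × Prop // (p.1 ∈ U' → p.2) ∧ (p.2 → p.1 ∈ U)} :=
  rep_int hP rep_Prop (fun y => y ∈ U') (fun y => y ∈ U) (fun _ _ h h1 => hU' h h1)
    (fun _ _ h h1 => hU h h1) (fun _ h => hsub h)

end Pool.Agent.Helper97.DB
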