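import Pool.Agent.Helper97.DB.Semi

/-!
# The duality of Kurzweil and Netter with an explicit isomorphism

The proof is the one of `Helper71/SL/Dual.lean`.
-/

set_option autoImplicit false

namespace Pool.Agent.Helper97.DB

open Pool.Agent.H33WL Pool.Agent.Helper71.SL

/-- The simple group used. -/
abbrev SG : Type := alternatingGroup (Fin 5)

/-- The set of the dual algebra. -/
abbrev DX (X : Type) : Type := (X → SG) ⧸ diag X SG

theorem dual_iso {X : Type} [Finite X] [Nonempty X] (F : Set (X → X)) :
    ∃ e : (Cong X F)ᵒᵈ ≃o Cong (DX X) (dops X SG F),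
      ∀ (π : Cong X F) (s t : X → SG), (e (OrderDual.toDual π)).1.r (s : DX X) (t : DX X) ↔
        s⁻¹ * t ∈ conOn π.1.r := by
  classical
  have hsimple : IsSimpleGroup SG := simple_A5
  have hS : ∃ a b : SG, a * b ≠ b * a := noncomm_A5
  obtain ⟨a0, ha0⟩ : ∃ a : SG, a ≠ 1 := by
    obtain ⟨a, b, hab⟩ := hS
    refine ⟨a, ?_⟩
    rintro rfl
    exact hab (by rw [one_mul, mul_one])
  let c : Cong X F → Cong (DX X) (dops X SG F) :=
    fun π => ⟨cg (conOn π.1.r) (diag_le π.1.r), cg_compat _ fun f hf s hs x y hxy =>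
      hs _ _ (π.2 f hf x y hxy)⟩
  have hc : ∀ π ρ, c π ≤ c ρ ↔ ρ ≤ π := by
    intro π ρ
    constructor
    · intro hle x y hxy
      by_contra hne
      let s : X → SG := fun z => if π.1.r x z then a0 else 1
      have hs : s ∈ conOn π.1.r := by
        intro u v huv
        show (if π.1.r x u then a0 else 1) = if π.1.r x v then a0 else 1
        have : π.1.r x u ↔ π.1.r x v :=
          ⟨fun h => π.1.trans h huv, fun h => π.1.trans h (π.1.symm huv)⟩
        by_cases h1 : π.1.r x u
        · rw [if_pos h1, if_pos (this.1 h1)]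
        · rw [if_neg h1, if_neg fun h2 => h1 (this.2 h2)]
      have h1 : (cg (conOn π.1.r) (diag_le π.1.r)).r ((1 : X → SG) : (X → SG) ⧸ diag X SG)
          (s : (X → SG) ⧸ diag X SG) := by
        rw [cg_iff, inv_one, one_mul]
        exact hs
      have h2 := hle h1
      have h3 : (cg (conOn ρ.1.r) (diag_le ρ.1.r)).r ((1 : X → SG) : (X → SG) ⧸ diag X SG)
          (s : (X → SG) ⧸ diag X SG) := h2
      rw [cg_iff, inv_one, one_mul] at h3
      have h4 : s x = s y := h3 x y hxy
      have h5 : s x = a0 := if_pos (π.1.refl x)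
      have h6 : s y = 1 := if_neg hne
      rw [h5, h6] at h4
      exact ha0 h4
    · intro hle x y hxy
      induction x using QuotientGroup.induction_on with
      | H x =>
        induction y using QuotientGroup.induction_on with
        | H y =>
          have h1 : (cg (conOn π.1.r) (diag_le π.1.r)).r (x : (X → SG) ⧸ diag X SG)
            (y : (X → SG) ⧸ diag X SG) := hxy
          show (cg (conOn ρ.1.r) (diag_le ρ.1.r)).r (x : (X → SG) ⧸ diag X SG)
            (y : (X → SG) ⧸ diag X SG)
          rw [cg_iff] at h1 ⊢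
          exact fun u v huv => h1 u v (hle huv)
  have hsurj : Function.Surjective c := by
    rintro ⟨θ, hθ⟩
    have hmul : ∀ (g : X → SG) x y, θ.r x y → θ.r (g • x) (g • y) := fun g x y h =>
      hθ _ (Or.inl ⟨g, rfl⟩) x y h
    let H : Subgroup (X → SG) :=
      { carrier := {g | θ.r ((1 : X → SG) : (X → SG) ⧸ diag X SG) (g : (X → SG) ⧸ diag X SG)}
        one_mem' := θ.refl _
        mul_mem' := by
          intro a b ha hb
          refine θ.trans ha ?_
          have h := hmul a _ _ hb
          rw [MulAction.Quotient.smul_coe, MulAction.Quotient.smul_coe, smul_eq_mul, smul_eq_mul,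
            mul_one] at h
          exact h
        inv_mem' := by
          intro a ha
          refine θ.symm ?_
          have h := hmul a⁻¹ _ _ ha
          rw [MulAction.Quotient.smul_coe, MulAction.Quotient.smul_coe, smul_eq_mul, smul_eq_mul,
            mul_one, inv_mul_cancel] at h
          exact h }
    have hH : diag X SG ≤ H := by
      intro g hg
      have h1 : ((1 : X → SG) : (X → SG) ⧸ diag X SG) = (g : (X → SG) ⧸ diag X SG) := by
        rw [QuotientGroup.eq, inv_one, one_mul]
        exact hg
      show θ.r ((1 : X → SG) : (X → SG) ⧸ diag X SG) (g : (X → SG) ⧸ diag X SG)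
      rw [← h1]
    have hHmem : ∀ s t : X → SG, s⁻¹ * t ∈ H ↔
        θ.r (s : (X → SG) ⧸ diag X SG) (t : (X → SG) ⧸ diag X SG) := by
      intro s t
      show θ.r ((1 : X → SG) : (X → SG) ⧸ diag X SG) ((s⁻¹ * t : X → SG) : (X → SG) ⧸ diag X SG) ↔ _
      constructor
      · intro h
        have h2 := hmul s _ _ h
        simp only [MulAction.Quotient.smul_coe, smul_eq_mul, mul_one, mul_inv_cancel_left] at h2
        exact h2
      · intro h
        have h2 := hmul s⁻¹ _ _ h
        simp only [MulAction.Quotient.smul_coe, smul_eq_mul, inv_mul_cancel] at h2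
        exact h2
    let π : Setoid X :=
      { r := fun x y => ∀ h ∈ H, h x = h y
        iseqv := ⟨fun _ _ _ => rfl, fun h k hk => (h k hk).symm,
          fun h h' k hk => (h k hk).trans (h' k hk)⟩ }
    have hπ : ∀ f ∈ F, ∀ x y : X, π.r x y → π.r (f x) (f y) := by
      intro f hf x y hxy h hh
      have h1 := hθ _ (Or.inr ⟨f, hf, rfl⟩) _ _ (show θ.r ((1 : X → SG) : (X → SG) ⧸ diag X SG)
        (h : (X → SG) ⧸ diag X SG) from hh)
      rw [pull_mk, pull_mk] at h1
      exact hxy (h ∘ f) h1
    refine ⟨⟨π, hπ⟩, Subtype.ext (Setoid.ext ?_)⟩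
    intro x y
    induction x using QuotientGroup.induction_on with
    | H x =>
      induction y using QuotientGroup.induction_on with
      | H y =>
        show (cg (conOn π.r) (diag_le π.r)).r (x : (X → SG) ⧸ diag X SG)
            (y : (X → SG) ⧸ diag X SG) ↔ θ.r (x : (X → SG) ⧸ diag X SG) (y : (X → SG) ⧸ diag X SG)
        rw [cg_iff, ← hHmem]
        constructor
        · intro h
          exact mem_of_const hS hH _ h
        · intro h u v huv
          exact huv _ h
  have hinj : Function.Injective c := by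
    intro π ρ h
    exact le_antisymm ((hc ρ π).1 h.ge) ((hc π ρ).1 h.le)
  let e : (Cong X F)ᵒᵈ ≃o Cong (DX X) (dops X SG F) :=
    { toEquiv := OrderDual.ofDual.trans (Equiv.ofBijective c ⟨hinj, hsurj⟩)
      map_rel_iff' := by
        intro x y
        show c (OrderDual.ofDual x) ≤ c (OrderDual.ofDual y) ↔ x ≤ y
        rw [hc]
        rfl }
  refine ⟨e, fun π s t => ?_⟩
  exact cg_iff (conOn π.1.r) (diag_le π.1.r) s t

/-- The map between the dual algebras belonging to a map `B → X`. -/
def dmap {B X : Type} (ι₀ : B → X) : DX X → DX B :=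
  Quotient.map' (fun s => s ∘ ι₀) (by
    intro s t h
    rw [QuotientGroup.leftRel_apply] at h ⊢
    intro x y _
    exact h (ι₀ x) (ι₀ y) trivial)

theorem dmap_mk {B X : Type} (ι₀ : B → X) (s : X → SG) :
    dmap ι₀ (s : DX X) = ((s ∘ ι₀ : B → SG) : DX B) := rfl

end Pool.Agent.Helper97.DB
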