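import Pool.Agent.Helper97.DB.Dual2

/-!
# Families of intervals

Let `K` and `D` be representable and `φ ≤ Φ` two monotone maps `K → D`. The lattice of the pairs `(y, z)` with
`φ y ≤ z ≤ Φ y` is representable.
-/

set_option autoImplicit false

namespace Pool.Agent.Helper97.DB

open Pool.Agent.H33WL Pool.Agent.Helper71.SL OrderDual

theorem rep_int {K D : Type} [PartialOrder K] [PartialOrder D] (hK : Representable K)
    (hD : Representable D) (φ Φ : K → D) (hφ : Monotone φ) (hΦ : Monotone Φ) (hle : ∀ y, φ y ≤ Φ y) :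
    Representable {p : K × D // φ p.1 ≤ p.2 ∧ p.2 ≤ Φ p.1} := by
  classical
  obtain ⟨B, hB, hB', F, ⟨eK⟩⟩ := rep_to_unary (rep_dual hK)
  obtain ⟨A, hA, hA', G, ⟨eD⟩⟩ := rep_to_unary (rep_dual hD)
  -- the dual of the pairs with `z ≤ Φ y`
  let Φ' : Cong B F → Cong A G := fun y => eD (toDual (Φ (ofDual (eK.symm y))))
  have hΦ' : Monotone Φ' := by
    intro y y' h
    refine eD.monotone ?_
    show Φ (ofDual (eK.symm y')) ≤ Φ (ofDual (eK.symm y))
    exact hΦ (eK.symm.monotone h)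
  obtain ⟨Y, hY, hY', M, e1, ι₀, hι⟩ := semi_core' F G (∅ : Set (A → B)) Φ' hΦ'
    (fun y h hh => absurd hh (Set.notMem_empty h))
  obtain ⟨eB, heB⟩ := dual_iso F
  obtain ⟨eY, heY⟩ := dual_iso M
  obtain ⟨a0, ha0⟩ : ∃ a : SG, a ≠ 1 := by
    obtain ⟨a, b, hab⟩ := noncomm_A5
    refine ⟨a, ?_⟩
    rintro rfl
    exact hab (by rw [one_mul, mul_one])
  -- the element of the first lattice belonging to a pair
  let L1 : Type := {yz : Cong B F × Cong A G // Φ' yz.1 ≤ yz.2 ∧
    ∀ h ∈ (∅ : Set (A → B)), ∀ a a', yz.2.1.r a a' → yz.1.1.r (h a) (h a')}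
  let el : (y : Cong B F) → (z : Cong A G) → Φ' y ≤ z → L1 := fun y z h =>
    ⟨(y, z), h, fun h hh => absurd hh (Set.notMem_empty h)⟩
  -- the condition given by the map `dmap ι₀`
  have hcond : ∀ (p : L1) (y : Cong B F),
      (∀ a a', (eY (toDual (e1 p))).1.r a a' → (eB (toDual y)).1.r (dmap ι₀ a) (dmap ι₀ a')) ↔
        y ≤ p.1.1 := by
    intro p y
    constructor
    · intro h b b' hb
      by_contra hne
      let s : Y → SG := fun w => if (e1 p).1.r (ι₀ b) w then a0 else 1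
      have hs : s ∈ conOn (e1 p).1.r := by
        intro u v huv
        show (if (e1 p).1.r (ι₀ b) u then a0 else 1) = if (e1 p).1.r (ι₀ b) v then a0 else 1
        have : (e1 p).1.r (ι₀ b) u ↔ (e1 p).1.r (ι₀ b) v :=
          ⟨fun h => (e1 p).1.trans h huv, fun h => (e1 p).1.trans h ((e1 p).1.symm huv)⟩
        by_cases h1 : (e1 p).1.r (ι₀ b) u
        · rw [if_pos h1, if_pos (this.1 h1)]
        · rw [if_neg h1, if_neg fun h2 => h1 (this.2 h2)]
      have h1 : (eY (toDual (e1 p))).1.r ((1 : Y → SG) : DX Y) (s : DX Y) := by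
        rw [heY, inv_one, one_mul]
        exact hs
      have h2 := h _ _ h1
      rw [dmap_mk, dmap_mk, heB] at h2
      have h3 := h2 b b' hb
      have h4 : s (ι₀ b) = a0 := if_pos ((e1 p).1.refl _)
      have h5 : s (ι₀ b') = 1 := if_neg fun h6 => hne ((hι p b b').1 h6)
      have h6 : (1 : SG)⁻¹ * s (ι₀ b) = (1 : SG)⁻¹ * s (ι₀ b') := h3
      rw [h4, h5] at h6
      exact ha0 (mul_left_cancel h6)
    · intro h a a' haa
      induction a using QuotientGroup.induction_on with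
      | H s =>
        induction a' using QuotientGroup.induction_on with
        | H t =>
          have h1 : (eY (toDual (e1 p))).1.r (s : DX Y) (t : DX Y) := haa
          show (eB (toDual y)).1.r (dmap ι₀ (s : DX Y)) (dmap ι₀ (t : DX Y))
          rw [dmap_mk, dmap_mk, heB]
          rw [heY] at h1
          intro b b' hb
          exact h1 (ι₀ b) (ι₀ b') ((hι p b b').2 (h hb))
  -- the second semidirect product
  let kk : Cong (DX B) (dops B SG F) → Cong B F := fun Y0 => ofDual (eB.symm Y0)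
  have hkk : ∀ {Y0 Y1}, Y0 ≤ Y1 → kk Y1 ≤ kk Y0 := fun h => eB.symm.monotone h
  let kf : Cong B F → K := fun y => ofDual (eK.symm y)
  have hkf : ∀ {y y'}, y ≤ y' → kf y' ≤ kf y := fun h => eK.symm.monotone h
  have hkfe : ∀ k, kf (eK (toDual k)) = k := by
    intro k
    show ofDual (eK.symm (eK (toDual k))) = k
    rw [eK.symm_apply_apply]
    rfl
  have hkek : ∀ y, eK (toDual (kf y)) = y := fun y => eK.apply_symm_apply y
  have hkke : ∀ y, kk (eB (toDual y)) = y := by
    intro y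
    show ofDual (eB.symm (eB (toDual y))) = y
    rw [eB.symm_apply_apply]
    rfl
  have hΦle : ∀ (y : Cong B F) (d : D), d ≤ Φ (kf y) → Φ' y ≤ eD (toDual d) := fun y d h =>
    eD.monotone h
  let φ'' : Cong (DX B) (dops B SG F) → Cong (DX Y) (dops Y SG M) := fun Y0 =>
    eY (toDual (e1 (el (kk Y0) (eD (toDual (φ (kf (kk Y0))))) (hΦle _ _ (hle _)))))
  have hφ'' : Monotone φ'' := by
    intro Y0 Y1 h
    refine eY.monotone ?_
    show e1 _ ≤ e1 _
    rw [e1.le_iff_le]
    refine ⟨hkk h, ?_⟩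
    show eD (toDual (φ (kf (kk Y1)))) ≤ eD (toDual (φ (kf (kk Y0))))
    exact eD.monotone (hφ (hkf (hkk h)))
  have h2 := semi_core (dops B SG F) (dops Y SG M) {dmap ι₀} φ'' hφ'' (by
    rintro Y0 h rfl a a' haa
    have h3 := (hcond (el (kk Y0) (eD (toDual (φ (kf (kk Y0))))) (hΦle _ _ (hle _))) (kk Y0)).2 le_rfl
      a a' haa
    have h4 : eB (toDual (kk Y0)) = Y0 := eB.apply_symm_apply Y0
    rwa [h4] at h3)
  -- the final isomorphism
  let T : Type := {yz : Cong (DX B) (dops B SG F) × Cong (DX Y) (dops Y SG M) // φ'' yz.1 ≤ yz.2 ∧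
    ∀ h ∈ ({dmap ι₀} : Set (DX Y → DX B)), ∀ a a', yz.2.1.r a a' → yz.1.1.r (h a) (h a')}
  let R : Type := {p : K × D // φ p.1 ≤ p.2 ∧ p.2 ≤ Φ p.1}
  have hR : ∀ p : R, Φ' (eK (toDual p.1.1)) ≤ eD (toDual p.1.2) := by
    intro p
    refine hΦle _ _ ?_
    rw [hkfe]
    exact p.2.2
  let g : R → T := fun p => ⟨(eB (toDual (eK (toDual p.1.1))),
      eY (toDual (e1 (el (eK (toDual p.1.1)) (eD (toDual p.1.2)) (hR p))))), by
      show eY _ ≤ eY _
      refine eY.monotone ?_
      show e1 _ ≤ e1 _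
      rw [e1.le_iff_le]
      refine ⟨?_, ?_⟩
      · show eK (toDual p.1.1) ≤ kk (eB (toDual (eK (toDual p.1.1))))
        rw [hkke]
      · show eD (toDual p.1.2) ≤ eD (toDual (φ (kf (kk (eB (toDual (eK (toDual p.1.1))))))))
        rw [hkke, hkfe]
        exact eD.monotone p.2.1, by
      rintro h rfl
      exact (hcond _ _).2 le_rfl⟩
  have hg : ∀ p q, g p ≤ g q ↔ p ≤ q := by
    intro p q
    constructor
    · rintro ⟨h3, h4⟩
      have h5 : toDual (eK (toDual p.1.1)) ≤ toDual (eK (toDual q.1.1)) := eB.le_iff_le.1 h3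
      have h6 : toDual (e1 (el (eK (toDual p.1.1)) (eD (toDual p.1.2)) (hR p))) ≤
        toDual (e1 (el (eK (toDual q.1.1)) (eD (toDual q.1.2)) (hR q))) := eY.le_iff_le.1 h4
      have h7 := e1.le_iff_le.1 (toDual_le_toDual.1 h6)
      exact ⟨eK.le_iff_le.1 (toDual_le_toDual.1 h5), eD.le_iff_le.1 h7.2⟩
    · intro h
      have h3 : eK (toDual q.1.1) ≤ eK (toDual p.1.1) := eK.monotone h.1
      have h4 : eD (toDual q.1.2) ≤ eD (toDual p.1.2) := eD.monotone h.2
      refine ⟨eB.monotone (toDual_le_toDual.2 h3), eY.monotone (toDual_le_toDual.2 ?_)⟩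
      rw [e1.le_iff_le]
      exact ⟨h3, h4⟩
  have hgi : Function.Injective g := by
    intro y y' h
    exact le_antisymm ((hg y y').1 h.le) ((hg y' y).1 h.ge)
  have hgs : Function.Surjective g := by
    rintro ⟨⟨Y0, Z⟩, hZ1, hZ2⟩
    obtain ⟨q, hq⟩ : ∃ q : L1, eY (toDual (e1 q)) = Z :=
      ⟨e1.symm (ofDual (eY.symm Z)), by
        rw [e1.apply_symm_apply]
        exact eY.apply_symm_apply Z⟩
    subst hq
    obtain ⟨⟨y1, z1⟩, hq1, hq2⟩ := q
    have h3 : kk Y0 ≤ y1 := by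
      refine (hcond ⟨(y1, z1), hq1, hq2⟩ (kk Y0)).1 ?_
      have h4 : eB (toDual (kk Y0)) = Y0 := eB.apply_symm_apply Y0
      rw [h4]
      exact hZ2 _ rfl
    have h4 : eY (toDual (e1 (el (kk Y0) (eD (toDual (φ (kf (kk Y0))))) (hΦle _ _ (hle _))))) ≤
        eY (toDual (e1 ⟨(y1, z1), hq1, hq2⟩)) := hZ1
    have h5 := e1.le_iff_le.1 (toDual_le_toDual.1 (eY.le_iff_le.1 h4))
    have h6 : y1 ≤ kk Y0 := h5.1
    have h7 : z1 ≤ eD (toDual (φ (kf (kk Y0)))) := h5.2
    have h8 : y1 = kk Y0 := le_antisymm h6 h3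
    subst h8
    have h9 : φ (kf (kk Y0)) ≤ ofDual (eD.symm z1) := by
      have h10 := eD.symm.monotone h7
      rw [eD.symm_apply_apply] at h10
      exact h10
    have h11 : ofDual (eD.symm z1) ≤ Φ (kf (kk Y0)) := by
      have h10 := eD.symm.monotone hq1
      have h12 : Φ' (kk Y0) = eD (toDual (Φ (kf (kk Y0)))) := rfl
      rw [h12, eD.symm_apply_apply] at h10
      exact h10
    refine ⟨⟨(kf (kk Y0), ofDual (eD.symm z1)), h9, h11⟩, ?_⟩
    apply Subtype.ext
    refine Prod.ext ?_ ?_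
    · show eB (toDual (eK (toDual (kf (kk Y0))))) = Y0
      rw [hkek]
      exact eB.apply_symm_apply Y0
    · have h10 : eD (toDual (ofDual (eD.symm z1))) = z1 := eD.apply_symm_apply z1
      have key : el (eK (toDual (kf (kk Y0)))) (eD (toDual (ofDual (eD.symm z1))))
          (hR ⟨(kf (kk Y0), ofDual (eD.symm z1)), h9, h11⟩) = ⟨(kk Y0, z1), hq1, hq2⟩ :=
        Subtype.ext (Prod.ext (hkek _) h10)
      exact congrArg (fun w => eY (toDual (e1 w))) key
  let i : R ≃o T :=
    { toEquiv := Equiv.ofBijective g ⟨hgi, hgs⟩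
      map_rel_iff' := by
        intro x y
        exact hg x y }
  exact rep_of_iso i.symm h2

end Pool.Agent.Helper97.DB
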