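import Pool.Agent.Helper97.DB.Sorted

/-!
# Subdirect products of `2` and `M_3`

Here `M_3` is the lattice of the equivalence relations of a set with three elements. A finite subdirect product
of copies of `2` and `M_3` is representable (Snow 2003); the proof here uses many-sorted unary algebras.
-/

set_option autoImplicit false

namespace Pool.Agent.Helper97.DB

open Pool.Agent.H33WL Pool.Agent.Helper71.SL

theorem fin3 : ∀ x y w : Fin 3, x ≠ y → w ≠ x → w ≠ y → ∀ p, p = x ∨ p = y ∨ p = w := by decide

theorem fin3ex : ∀ x y : Fin 3, ∃ d, d ≠ x ∧ d ≠ y := by decide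

theorem sup3 (B C : Setoid (Fin 3)) {x y w : Fin 3} (hxy : x ≠ y) (hwx : w ≠ x) (hwy : w ≠ y)
    (h : (B ⊔ C).r x y) : B.r x y ∨ C.r x y ∨ (B.r x w ∧ C.r w y) ∨ (C.r x w ∧ B.r w y) := by
  classical
  by_contra hcon
  simp only [not_or, not_and] at hcon
  obtain ⟨h1, h2, h3, h4⟩ := hcon
  have hall := fin3 x y w hxy hwx hwy
  have key : ∀ (a b c : Fin 3), (∀ p, p = a ∨ p = b ∨ p = c) → (∀ E : Setoid (Fin 3), E = B ∨ E = C →
      ¬ E.r a b ∧ ¬ E.r a c) → ∀ d, (B ⊔ C).r a d → a = d := by
    intro a b c habc hE d hd
    have hD : B ⊔ C ≤ Setoid.ker fun p => (p = a : Prop) := by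
      have hE' : ∀ E : Setoid (Fin 3), E = B ∨ E = C → E ≤ Setoid.ker fun p => (p = a : Prop) := by
        intro E hE1 p q hpq
        obtain ⟨h5, h6⟩ := hE E hE1
        have h7 : ∀ q, E.r a q → q = a := by
          intro q hq
          rcases habc q with h8 | h8 | h8
          · exact h8
          · rw [h8] at hq
            exact absurd hq h5
          · rw [h8] at hq
            exact absurd hq h6
        show (p = a : Prop) = (q = a : Prop)
        rw [eq_iff_iff]
        constructor
        · intro h8
          exact h7 q (h8 ▸ hpq)
        · intro h8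
          exact h7 p (E.symm (h8 ▸ hpq))
      exact sup_le (hE' B (Or.inl rfl)) (hE' C (Or.inr rfl))
    have h5 : (a = a : Prop) = (d = a : Prop) := hD hd
    rw [eq_iff_iff] at h5
    exact (h5.1 rfl).symm
  by_cases h5 : B.r x w ∨ C.r x w
  · by_cases h6 : B.r w y ∨ C.r w y
    · rcases h5 with h5 | h5
      · rcases h6 with h6 | h6
        · exact h1 (B.trans h5 h6)
        · exact h3 h5 h6
      · rcases h6 with h6 | h6
        · exact h4 h5 h6
        · exact h2 (C.trans h5 h6)
    · rw [not_or] at h6
      refine hxy (key y x w (fun p => ?_) ?_ x ((B ⊔ C).symm h)).symm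
      · rcases hall p with h7 | h7 | h7
        · exact Or.inr (Or.inl h7)
        · exact Or.inl h7
        · exact Or.inr (Or.inr h7)
      · rintro E (rfl | rfl)
        · exact ⟨fun h7 => h1 (E.symm h7), fun h7 => h6.1 (E.symm h7)⟩
        · exact ⟨fun h7 => h2 (E.symm h7), fun h7 => h6.2 (E.symm h7)⟩
  · rw [not_or] at h5
    refine hxy (key x y w hall ?_ y h)
    rintro E (rfl | rfl)
    · exact ⟨h1, h5.1⟩
    · exact ⟨h2, h5.2⟩

/-- The equivalence generated by one pair. -/
def at2 (u v : Fin 3) : Setoid (Fin 3) := Setoid.ker fun x => if x = u then v else x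

theorem at2_self (u v : Fin 3) : (at2 u v).r u v := by
  show (if u = u then v else u) = if v = u then v else v
  simp

theorem at2_le (u v : Fin 3) (t : Setoid (Fin 3)) (h : t.r u v) : at2 u v ≤ t := by
  intro p q hpq
  have h1 : (if p = u then v else p) = if q = u then v else q := hpq
  by_cases hp : p = u
  · by_cases hq : q = u
    · rw [hp, hq]
    · rw [if_pos hp, if_neg hq] at h1
      rw [hp, ← h1]
      exact h
  · by_cases hq : q = u
    · rw [if_neg hp, if_pos hq] at h1
      rw [hq, h1]
      exact t.symm h
    · rw [if_neg hp, if_neg hq] at h1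
      rw [h1]

theorem at2_tri (u v w : Fin 3) : at2 u v ≤ at2 u w ⊔ at2 v w := by
  have h1 : (at2 u w ⊔ at2 v w).r u w := (le_sup_left : at2 u w ≤ at2 u w ⊔ at2 v w) (at2_self u w)
  have h2 : (at2 u w ⊔ at2 v w).r w v :=
    (le_sup_right : at2 v w ≤ at2 u w ⊔ at2 v w) ((at2 v w).symm (at2_self v w))
  exact at2_le u v _ ((at2 u w ⊔ at2 v w).trans h1 h2)

theorem at2_comm (u v : Fin 3) : at2 u v = at2 v u :=
  le_antisymm (at2_le _ _ _ ((at2 v u).symm (at2_self v u))) (at2_le _ _ _ ((at2 u v).symm (at2_self u v)))

theorem rep_unit : Representable Unit := by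
  let e : Unit ≃o {r : Setoid Unit // ∀ f ∈ (∅ : Set (Unit → Unit)), ∀ x y : Unit, r.r x y → r.r (f x) (f y)} :=
    { toFun := fun _ => ⟨⊤, fun _ _ _ _ _ => trivial⟩
      invFun := fun _ => ()
      left_inv := fun _ => rfl
      right_inv := fun r => Subtype.ext (Setoid.ext fun a b => ⟨fun _ => r.1.refl _, fun _ => trivial⟩)
      map_rel_iff' := by
        intro a b
        exact ⟨fun _ => le_rfl, fun _ => le_rfl⟩ }
  exact rep_unary Unit ∅ e

theorem rep_M3 {L : Type} [Lattice L] [Finite L] [Nonempty L] {ι : Type} [Finite ι]
    (π : LatticeHom L (ι → Setoid (Fin 3)))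
    (hπ : ∀ i, (Set.range fun x => π x i) = {⊥, ⊤} ∨ Function.Surjective fun x => π x i) :
    Representable {k : ι → Setoid (Fin 3) // ∃ x, π x = k} := by
  classical
  have hmono : ∀ {x x' : L}, x ≤ x' → ∀ i, π x i ≤ π x' i := fun h i => (OrderHomClass.mono π h) i
  obtain ⟨x00⟩ := (inferInstance : Nonempty L)
  rcases isEmpty_or_nonempty ι with hι | hι
  · refine rep_of_iso ?_ rep_unit
    exact
      { toFun := fun _ => ⟨π x00, x00, rfl⟩
        invFun := fun _ => ()
        left_inv := fun _ => rfl
        right_inv := fun k => Subtype.ext (funext fun i => (hι.false i).elim)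
        map_rel_iff' := by
          intro a b
          exact ⟨fun _ => le_rfl, fun _ => le_rfl⟩ }
  have hbotT : ∀ i, ∃ x, π x i = ⊥ := by
    intro i
    rcases hπ i with h | h
    · have : (⊥ : Setoid (Fin 3)) ∈ Set.range fun x => π x i := by rw [h]; exact Or.inl rfl
      exact this
    · exact h ⊥
  have htopT : ∀ i, ∃ x, π x i = ⊤ := by
    intro i
    rcases hπ i with h | h
    · have : (⊤ : Setoid (Fin 3)) ∈ Set.range fun x => π x i := by rw [h]; exact Or.inr rfl
      exact this
    · exact h ⊤
  have hleast : ∀ (i : ι) (t : Setoid (Fin 3)), ∃ x, t ≤ π x i ∧ ∀ x', t ≤ π x' i → x ≤ x' := by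
    intro i t
    obtain ⟨x1, hx1⟩ := htopT i
    obtain ⟨x, hx, hmin⟩ := (wellFounded_lt (α := L)).has_min {x | t ≤ π x i} ⟨x1, by
      show t ≤ π x1 i
      rw [hx1]
      exact le_top⟩
    refine ⟨x, hx, fun x' hx' => ?_⟩
    have h1 : t ≤ π (x ⊓ x') i := by
      rw [map_inf]
      exact le_inf hx hx'
    by_contra h2
    exact hmin (x ⊓ x') h1 (inf_le_left.lt_of_ne fun h3 => h2 (inf_eq_left.1 h3))
  choose μ hμ1 hμ2 using hleast
  have hμeq : ∀ i x, π (μ i (π x i)) i = π x i := fun i x =>
    le_antisymm (hmono (hμ2 i _ x le_rfl) i) (hμ1 i _)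
  have hμmono : ∀ i {s t}, s ≤ t → μ i s ≤ μ i t := fun i _ _ h => hμ2 i _ _ (h.trans (hμ1 i _))
  have hμsup : ∀ i s t, μ i (s ⊔ t) ≤ μ i s ⊔ μ i t := by
    intro i s t
    refine hμ2 i _ _ ?_
    rw [map_sup]
    exact sup_le_sup (hμ1 i s) (hμ1 i t)
  have hμbot : ∀ i j, π (μ i ⊥) j = ⊥ := by
    intro i j
    obtain ⟨x, hx⟩ := hbotT j
    have h1 := hmono (hμ2 i ⊥ x bot_le) j
    rw [hx] at h1
    exact le_bot_iff.1 h1
  let H : ι → ι → Set (Fin 3 → Fin 3) := fun i j =>
    {h | ∀ x, ∀ u v, (π x i).r u v → (π (μ i (π x i)) j).r (h u) (h v)}
  have hiff : ∀ k : ι → Setoid (Fin 3), (∃ x, π x = k) ↔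
      ∀ i j, ∀ h ∈ H i j, ∀ u v, (k i).r u v → (k j).r (h u) (h v) := by
    intro k
    constructor
    · rintro ⟨x, rfl⟩ i j h hh u v huv
      exact hmono (hμ2 i _ x le_rfl) j (hh x u v huv)
    · intro hk
      -- the coordinates are in the right sets and `β (k i) ≤ k j`
      have hmain : ∀ i, (∃ x, π x i = k i) ∧ ∀ j, π (μ i (k i)) j ≤ k j := by
        intro i
        rcases hπ i with hT | hT
        · have hT' : ∀ x, π x i = ⊥ ∨ π x i = ⊤ := by
            intro x
            have : π x i ∈ Set.range fun x => π x i := ⟨x, rfl⟩
            rw [hT] at this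
            exact this
          -- all maps with values in a block of `β ⊤`
          have hH : ∀ (j : ι) (h : Fin 3 → Fin 3), (∀ u v, (π (μ i ⊤) j).r (h u) (h v)) → h ∈ H i j := by
            intro j h hh x u v huv
            rcases hT' x with h1 | h1
            · rw [h1] at huv
              have h2 : u = v := huv
              rw [h2]
            · rw [h1]
              exact hh u v
          by_cases hb : ∃ u v, u ≠ v ∧ (k i).r u v
          · obtain ⟨u, v, huv, hkuv⟩ := hb
            have hall : ∀ j c c', (π (μ i ⊤) j).r c c' → (k j).r c c' := by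
              intro j c c' hc
              have h1 := hk i j (fun x => if x = u then c else c') (hH j _ (by
                intro p q
                by_cases hp : p = u
                · by_cases hq : q = u
                  · rw [if_pos hp, if_pos hq]
                  · rw [if_pos hp, if_neg hq]
                    exact hc
                · by_cases hq : q = u
                  · rw [if_neg hp, if_pos hq]
                    exact (π (μ i ⊤) j).symm hc
                  · rw [if_neg hp, if_neg hq])) u v hkuv
              simp only [if_true, if_neg (Ne.symm huv)] at h1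
              exact h1
            have hki : k i = ⊤ := by
              rw [← top_le_iff]
              intro c c' _
              exact hall i c c' (hμ1 i ⊤ trivial)
            refine ⟨?_, ?_⟩
            · rw [hki]
              exact htopT i
            · intro j c c' hc
              rw [hki] at hc
              exact hall j c c' hc
          · have hki : k i = ⊥ := by
              rw [← le_bot_iff]
              intro c c' hc
              by_contra h1
              exact hb ⟨c, c', h1, hc⟩
            refine ⟨?_, ?_⟩
            · rw [hki]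
              exact hbotT i
            · intro j
              rw [hki, hμbot]
              exact bot_le
        · refine ⟨hT (k i), ?_⟩
          intro j
          have hsurj : ∀ t, ∃ x, π x i = t := hT
          -- atoms
          have hatom : ∀ u v w : Fin 3, u ≠ v → w ≠ u → w ≠ v → (k i).r u v →
              π (μ i (at2 u v)) j ≤ k j := by
            intro u v w huv hwu hwv hkuv x y hxy
            by_cases hne : x = y
            · rw [hne]
            obtain ⟨d0, hd1, hd2⟩ := fin3ex x y
            have hABC : π (μ i (at2 u v)) j ≤ π (μ i (at2 u w)) j ⊔ π (μ i (at2 v w)) j := by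
              have h1 := hmono ((hμmono i (at2_tri u v w)).trans (hμsup i _ _)) j
              rw [map_sup] at h1
              exact h1
            have hfun : ∀ a b d : Fin 3, (π (μ i (at2 u v)) j).r a b → (π (μ i (at2 u w)) j).r a d →
                (π (μ i (at2 v w)) j).r b d → (k j).r a b := by
              intro a b d hab had hbd
              let h : Fin 3 → Fin 3 := fun p => if p = u then a else if p = v then b else d
              have hu : h u = a := if_pos rfl
              have hv : h v = b := by
                show (if v = u then a else if v = v then b else d) = b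
                rw [if_neg (Ne.symm huv), if_pos rfl]
              have hw : h w = d := by
                show (if w = u then a else if w = v then b else d) = d
                rw [if_neg hwu, if_neg hwv]
              have hh : h ∈ H i j := by
                intro x0 p q hpq
                have hcase : ∀ (p q a b : Fin 3), h p = a → h q = b → (π (μ i (at2 p q)) j).r a b →
                    (π x0 i).r p q → (π (μ i (π x0 i)) j).r (h p) (h q) := by
                  intro p q a b hp hq h1 h2
                  rw [hp, hq]
                  exact hmono (hμmono i (at2_le p q _ h2)) j h1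
                rcases fin3 u v w huv hwu hwv p with h1 | h1 | h1
                · rcases fin3 u v w huv hwu hwv q with h2 | h2 | h2
                  · rw [h1, h2]
                  · subst h1 h2
                    exact hcase _ _ a b hu hv hab hpq
                  · subst h1 h2
                    exact hcase _ _ a d hu hw had hpq
                · rcases fin3 u v w huv hwu hwv q with h2 | h2 | h2
                  · subst h1 h2
                    rw [at2_comm] at hab
                    exact hcase _ _ b a hv hu ((π (μ i (at2 p q)) j).symm hab) hpq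
                  · rw [h1, h2]
                  · subst h1 h2
                    exact hcase _ _ b d hv hw hbd hpq
                · rcases fin3 u v w huv hwu hwv q with h2 | h2 | h2
                  · subst h1 h2
                    rw [at2_comm] at had
                    exact hcase _ _ d a hw hu ((π (μ i (at2 p q)) j).symm had) hpq
                  · subst h1 h2
                    rw [at2_comm] at hbd
                    exact hcase _ _ d b hw hv ((π (μ i (at2 p q)) j).symm hbd) hpq
                  · rw [h1, h2]
              have h1 := hk i j h hh u v hkuv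
              rw [hu, hv] at h1
              exact h1
            rcases sup3 _ _ hne hd1 hd2 (hABC hxy) with h1 | h1 | ⟨h1, h2⟩ | ⟨h1, h2⟩
            · exact hfun x y y hxy h1 ((π (μ i (at2 v w)) j).refl _)
            · exact hfun x y x hxy ((π (μ i (at2 u w)) j).refl _) ((π (μ i (at2 v w)) j).symm h1)
            · exact hfun x y d0 hxy h1 ((π (μ i (at2 v w)) j).symm h2)
            · exact (k j).symm (hfun y x d0 ((π (μ i (at2 u v)) j).symm hxy)
                ((π (μ i (at2 u w)) j).symm h2) h1)
          have hpart : ∀ u v w : Fin 3, u ≠ v → w ≠ u → w ≠ v →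
              π (μ i (if (k i).r u v then at2 u v else ⊥)) j ≤ k j := by
            intro u v w huv hwu hwv
            split_ifs with h1
            · exact hatom u v w huv hwu hwv h1
            · rw [hμbot]
              exact bot_le
          have hle : k i ≤ (if (k i).r 0 1 then at2 0 1 else ⊥) ⊔
              ((if (k i).r 0 2 then at2 0 2 else ⊥) ⊔ (if (k i).r 1 2 then at2 1 2 else ⊥)) := by
            have h01 : (k i).r 0 1 → ((if (k i).r 0 1 then at2 0 1 else ⊥) ⊔
              ((if (k i).r 0 2 then at2 0 2 else ⊥) ⊔ (if (k i).r 1 2 then at2 1 2 else ⊥))).r 0 1 := by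
              intro h
              refine (le_sup_left : (if (k i).r 0 1 then at2 0 1 else ⊥) ≤ _) ?_
              rw [if_pos h]
              exact at2_self 0 1
            have h02 : (k i).r 0 2 → ((if (k i).r 0 1 then at2 0 1 else ⊥) ⊔
              ((if (k i).r 0 2 then at2 0 2 else ⊥) ⊔ (if (k i).r 1 2 then at2 1 2 else ⊥))).r 0 2 := by
              intro h
              refine (le_sup_left.trans le_sup_right : (if (k i).r 0 2 then at2 0 2 else ⊥) ≤ _) ?_
              rw [if_pos h]
              exact at2_self 0 2
            have h12 : (k i).r 1 2 → ((if (k i).r 0 1 then at2 0 1 else ⊥) ⊔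
              ((if (k i).r 0 2 then at2 0 2 else ⊥) ⊔ (if (k i).r 1 2 then at2 1 2 else ⊥))).r 1 2 := by
              intro h
              refine (le_sup_right.trans le_sup_right : (if (k i).r 1 2 then at2 1 2 else ⊥) ≤ _) ?_
              rw [if_pos h]
              exact at2_self 1 2
            generalize (if (k i).r 0 1 then at2 0 1 else ⊥) ⊔
              ((if (k i).r 0 2 then at2 0 2 else ⊥) ⊔ (if (k i).r 1 2 then at2 1 2 else ⊥)) = Z at h01 h02 h12 ⊢
            intro p q hpq
            fin_cases p <;> fin_cases q
            · exact Z.refl _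
            · exact h01 hpq
            · exact h02 hpq
            · exact Z.symm (h01 ((k i).symm hpq))
            · exact Z.refl _
            · exact h12 hpq
            · exact Z.symm (h02 ((k i).symm hpq))
            · exact Z.symm (h12 ((k i).symm hpq))
            · exact Z.refl _
          have h1 := hmono ((hμmono i hle).trans ((hμsup i _ _).trans (sup_le_sup_left (hμsup i _ _) _))) j
          rw [map_sup, map_sup] at h1
          refine h1.trans (sup_le (hpart 0 1 2 (by decide) (by decide) (by decide))
            (sup_le (hpart 0 2 1 (by decide) (by decide) (by decide))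
              (hpart 1 2 0 (by decide) (by decide) (by decide))))
      have : Fintype ι := Fintype.ofFinite ι
      have hfin : ∀ s : Finset ι, ∃ x, (∀ i ∈ s, μ i (k i) ≤ x) ∧ ∀ j, π x j ≤ k j := by
        intro s
        induction s using Finset.induction_on with
        | empty =>
          refine ⟨μ (Classical.arbitrary ι) ⊥, by simp, fun j => ?_⟩
          rw [hμbot]
          exact bot_le
        | insert i s hi ih =>
          obtain ⟨x, h1, h2⟩ := ih
          refine ⟨x ⊔ μ i (k i), ?_, ?_⟩
          · intro i' hi'
            rcases Finset.mem_insert.1 hi' with h3 | h3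
            · rw [h3]
              exact le_sup_right
            · exact (h1 i' h3).trans le_sup_left
          · intro j
            rw [map_sup]
            exact sup_le (h2 j) ((hmain i).2 j)
      obtain ⟨x, h1, h2⟩ := hfin Finset.univ
      refine ⟨x, le_antisymm h2 fun j => ?_⟩
      exact (hμ1 j (k j)).trans (hmono (h1 j (Finset.mem_univ j)) j)
  refine rep_of_iso ?_ (rep_sorted H)
  exact
    { toEquiv := Equiv.subtypeEquivRight fun k => (hiff k).symm
      map_rel_iff' := Iff.rfl }

end Pool.Agent.Helper97.DB
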