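import Pool.Agent.Helper97.DB.CN

/-!
# Subdirect products with congruence normal lattices
-/

set_option autoImplicit false

namespace Pool.Agent.Helper97.DB

open Pool.Agent.H33WL

/-- If `L` is a subdirect product of `K` and a congruence normal lattice `C` then the projection to `K` has
a congruence normal kernel. -/
theorem sub_normal {L K C : Type} [Lattice L] [Lattice K] [Lattice C] (π : LatticeHom L K)
    (ν : LatticeHom L C) (hinj : ∀ x y, π x = π y → ν x = ν y → x = y) (hν : Function.Surjective ν)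
    (hC : ∀ p m : C, SupIrred p → InfIrred m → p ≤ m → ∃ (M : Type) (_ : Lattice M) (f : LatticeHom C M),
      ¬ ((∃ r < p, f r = f p) ↔ ∃ r, m < r ∧ f r = f m)) :
    ∀ p m : L, SupIrred p → InfIrred m → p ≤ m → (∃ r < p, π r = π p) →
      ∃ (M : Type) (_ : Lattice M) (f : LatticeHom L M),
        ¬ ((∃ r < p, f r = f p) ↔ ∃ r, m < r ∧ f r = f m) := by
  rintro p m hp hm hpm ⟨r, hr, hπr⟩
  have hmono : ∀ {x y : L}, x ≤ y → ν x ≤ ν y := fun h => OrderHomClass.mono ν h
  have hA : ∀ r' < p, ν r' ≠ ν p := by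
    intro r' hr' h
    have h1 : r ⊔ r' = p := by
      apply hinj
      · rw [map_sup, hπr, ← map_sup, sup_eq_left.2 hr'.le]
      · rw [map_sup, h, ← map_sup, sup_eq_right.2 hr.le]
    rcases hp.2 h1 with h2 | h2
    · exact hr.ne h2
    · exact hr'.ne h2
  by_cases hB : ∃ s, m < s ∧ ν s = ν m
  · refine ⟨C, inferInstance, ν, fun h => ?_⟩
    obtain ⟨r', hr', h1⟩ := h.2 hB
    exact hA r' hr' h1
  have hB' : ∀ s, m < s → ν s ≠ ν m := fun s hs h => hB ⟨s, hs, h⟩
  have hp' : SupIrred (ν p) := by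
    constructor
    · intro h1
      exact hA r hr (le_antisymm (hmono hr.le) (h1 (hmono hr.le)))
    · intro b c hbc
      obtain ⟨b, rfl⟩ := hν b
      obtain ⟨c, rfl⟩ := hν c
      have hb : ν (p ⊓ b) = ν b := by
        rw [map_inf, ← hbc]
        exact inf_eq_right.2 le_sup_left
      have hc : ν (p ⊓ c) = ν c := by
        rw [map_inf, ← hbc]
        exact inf_eq_right.2 le_sup_right
      have h1 : (p ⊓ b) ⊔ (p ⊓ c) = p := by
        by_contra h2
        refine hA ((p ⊓ b) ⊔ (p ⊓ c)) (lt_of_le_of_ne (sup_le inf_le_left inf_le_left) h2) ?_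
        rw [map_sup, hb, hc, hbc]
      rcases hp.2 h1 with h2 | h2
      · left
        rw [← hb, h2]
      · right
        rw [← hc, h2]
  have hm' : InfIrred (ν m) := by
    constructor
    · intro h1
      apply hm.1
      intro s hs
      by_contra h2
      have h3 : m < s := lt_of_le_not_ge hs h2
      exact hB' s h3 (le_antisymm (h1 (hmono hs)) (hmono hs))
    · intro b c hbc
      obtain ⟨b, rfl⟩ := hν b
      obtain ⟨c, rfl⟩ := hν c
      have hb : ν (m ⊔ b) = ν b := by
        rw [map_sup, ← hbc]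
        exact sup_eq_right.2 inf_le_left
      have hc : ν (m ⊔ c) = ν c := by
        rw [map_sup, ← hbc]
        exact sup_eq_right.2 inf_le_right
      have h1 : (m ⊔ b) ⊓ (m ⊔ c) = m := by
        by_contra h2
        refine hB' ((m ⊔ b) ⊓ (m ⊔ c)) (lt_of_le_of_ne (le_inf le_sup_left le_sup_left) (Ne.symm h2)) ?_
        rw [map_inf, hb, hc, hbc]
      rcases hm.2 h1 with h2 | h2
      · left
        rw [← hb, h2]
      · right
        rw [← hc, h2]
  obtain ⟨M, _, f, hf⟩ := hC (ν p) (ν m) hp' hm' (hmono hpm)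
  refine ⟨M, inferInstance, f.comp ν, fun h => hf ?_⟩
  have h1 : (∃ r' < p, (f.comp ν) r' = (f.comp ν) p) ↔ ∃ y < ν p, f y = f (ν p) := by
    constructor
    · rintro ⟨r', hr', h1⟩
      exact ⟨ν r', lt_of_le_of_ne (hmono hr'.le) (hA r' hr'), h1⟩
    · rintro ⟨y, hy, h1⟩
      obtain ⟨y, rfl⟩ := hν y
      have h2 : ν (p ⊓ y) = ν y := by
        rw [map_inf]
        exact inf_eq_right.2 hy.le
      refine ⟨p ⊓ y, inf_le_left.lt_of_ne fun h3 => ?_, ?_⟩
      · rw [h3] at h2
        exact hy.ne h2.symm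
      · show f (ν (p ⊓ y)) = f (ν p)
        rw [h2, h1]
  have h2 : (∃ s, m < s ∧ (f.comp ν) s = (f.comp ν) m) ↔ ∃ y, ν m < y ∧ f y = f (ν m) := by
    constructor
    · rintro ⟨s, hs, h1⟩
      exact ⟨ν s, lt_of_le_of_ne (hmono hs.le) (Ne.symm (hB' s hs)), h1⟩
    · rintro ⟨y, hy, h1⟩
      obtain ⟨y, rfl⟩ := hν y
      have h2 : ν (m ⊔ y) = ν y := by
        rw [map_sup]
        exact sup_eq_right.2 hy.le
      refine ⟨m ⊔ y, lt_of_le_of_ne le_sup_left fun h3 => ?_, ?_⟩
      · rw [← h3] at h2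
        exact hy.ne h2
      · show f (ν (m ⊔ y)) = f (ν m)
        rw [h2, h1]
  rw [← h1, ← h2]
  exact h

end Pool.Agent.Helper97.DB
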