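import Pool.Agent.Helper97.DB.Core

/-!
# Semidirect products of congruence lattices: the theorem

Let `Cong B F` and `Cong A G` be the congruence lattices of two finite unary algebras, `H` a set of maps
`A → B` and `φ : Cong B F → Cong A G` monotone such that every `h ∈ H` maps `φ y` into `y`. Then the lattice of
all pairs `(y, z)` with `φ y ≤ z` and `h z ⊆ y` for all `h ∈ H` is the congruence lattice of a finite algebra.
-/

set_option autoImplicit false

namespace Pool.Agent.Helper97.DB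

open Pool.Agent.H33WL Pool.Agent.Helper71.SL

section

variable {A B : Type} {D : Dat A B}

/-- Extension of a map `h : A → B`. -/
def ht (h : A → B) (κ : D.C → ℕ) : X D → B
  | Sum.inl a => h a
  | Sum.inr (c, k, b) => if k < κ c then h (D.al c) else if k = κ c then b else h (D.be c)

theorem ht_pt (h : A → B) (κ : D.C → ℕ) (hκ : ∀ c, κ c < 3 * D.N) (c : D.C) {k : ℕ} (b : B)
    (hk : k ≤ 3 * D.N) : ht h κ (pt c k b) =
      if k < κ c then h (D.al c) else if k = κ c then b else h (D.be c) := by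
  rcases lt_or_ge k (3 * D.N) with hk | hk
  · rw [pt_lt c hk]
    rfl
  · have := hκ c
    rw [pt_ge c hk, if_neg (by omega), if_neg (by omega)]
    rfl

theorem ht_gen (h : A → B) (κ : D.C → ℕ)
    (hκ : ∀ c, κ c < 3 * D.N ∧ D.s (κ c) = h (D.al c) ∧ D.t (D.yy c) (κ c) = h (D.be c))
    {y : Setoid B} {z : Setoid A} (hz : ∀ a a', z.r a a' → y.r (h a) (h a')) (x x' : X D)
    (hx : Gen y z x x') : y.r (ht h κ x) (ht h κ x') := by
  have hκ1 : ∀ c, κ c < 3 * D.N := fun c => (hκ c).1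
  cases hx with
  | base h1 => exact hz _ _ h1
  | copy c k hb =>
    rw [← pt_lt c k.2, ← pt_lt c k.2, ht_pt h κ hκ1 c _ k.2.le, ht_pt h κ hκ1 c _ k.2.le]
    split_ifs
    · exact y.refl _
    · exact hb
    · exact y.refl _
  | first c =>
    obtain ⟨h1, h2, h3⟩ := hκ c
    rw [ht_pt h κ hκ1 c _ (by omega)]
    show y.r (h (D.al c)) _
    split_ifs with h4 h5
    · exact y.refl _
    · rw [h5, h2]
    · omega
  | next c k hk =>
    obtain ⟨h1, h2, h3⟩ := hκ c
    rw [ht_pt h κ hκ1 c _ hk.le, ht_pt h κ hκ1 c _ (by omega)]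
    have key : (if k < κ c then h (D.al c) else if k = κ c then D.t (D.yy c) k else h (D.be c)) =
        if k + 1 < κ c then h (D.al c) else if k + 1 = κ c then D.s (k + 1) else h (D.be c) := by
      rcases Nat.lt_trichotomy k (κ c) with h4 | h4 | h4
      · rw [if_pos h4]
        rcases Nat.lt_or_ge (k + 1) (κ c) with h5 | h5
        · rw [if_pos h5]
        · have h6 : k + 1 = κ c := by omega
          rw [if_neg (by omega), if_pos h6, h6, h2]
      · rw [if_neg (by omega), if_pos h4, if_neg (by omega), if_neg (by omega), h4, h3]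
      · rw [if_neg (by omega), if_neg (by omega), if_neg (by omega), if_neg (by omega)]
    rw [key]

/-- Extension of a map `p : A → A`. -/
def pe (p : A → A) (σ : D.C → D.C) : X D → X D
  | Sum.inl a => Sum.inl (p a)
  | Sum.inr (c, k, b) => Sum.inr (σ c, k, b)

theorem pe_pt (p : A → A) (σ : D.C → D.C) (hσ : ∀ c, D.be (σ c) = p (D.be c)) (c : D.C) (k : ℕ) (b : B) :
    pe p σ (pt c k b) = pt (σ c) k b := by
  rcases lt_or_ge k (3 * D.N) with hk | hk
  · rw [pt_lt c hk, pt_lt (σ c) hk]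
    rfl
  · rw [pt_ge c hk, pt_ge (σ c) hk, hσ]
    rfl

theorem pe_gen (p : A → A) (σ : D.C → D.C)
    (hσ : ∀ c, D.yy (σ c) = D.yy c ∧ D.al (σ c) = p (D.al c) ∧ D.be (σ c) = p (D.be c))
    {y : Setoid B} {z : Setoid A} (hz : ∀ a a', z.r a a' → z.r (p a) (p a')) (x x' : X D)
    (hx : Gen y z x x') : (E y z).r (pe p σ x) (pe p σ x') := by
  have h3 : ∀ c, D.be (σ c) = p (D.be c) := fun c => (hσ c).2.2
  cases hx with
  | base h1 => exact E_of (.base (hz _ _ h1))
  | copy c k hb => exact E_of (.copy (σ c) k hb)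
  | first c =>
    rw [pe_pt p σ h3]
    have h1 : pe (D := D) p σ (Sum.inl (D.al c)) = Sum.inl (D.al (σ c)) := by rw [(hσ c).2.1]; rfl
    rw [h1]
    exact E_of (.first (σ c))
  | next c k hk =>
    rw [pe_pt p σ h3, pe_pt p σ h3, ← (hσ c).1]
    exact E_of (.next (σ c) k hk)

open Classical in
/-- The retraction to `A` modulo `z`. -/
noncomputable def pr (y : Setoid B) : X D → A
  | Sum.inl a => a
  | Sum.inr (c, k, b) =>
    if y.r b (D.s k) ∧ ∀ k' < k.1, y.r (D.s k') (D.t (D.yy c) k') then D.al c else D.be c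

open Classical in
theorem pr_lt (y : Setoid B) (c : D.C) {k : ℕ} (hk : k < 3 * D.N) (b : B) : pr y (pt c k b) =
    if y.r b (D.s k) ∧ ∀ k' < k, y.r (D.s k') (D.t (D.yy c) k') then D.al c else D.be c := by
  rw [pt_lt c hk]
  rfl

theorem pr_gen {y : Setoid B} {z : Setoid A} (hφ : ∀ c, D.yy c ≤ y → z.r (D.al c) (D.be c)) (x x' : X D)
    (hx : Gen y z x x') : z.r (pr y x) (pr y x') := by
  classical
  cases hx with
  | base h1 => exact h1
  | copy c k hb =>
    rename_i b b'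
    rw [← pt_lt c k.2, ← pt_lt c k.2, pr_lt y c k.2, pr_lt y c k.2]
    have : (y.r b (D.s k) ∧ ∀ k' < k.1, y.r (D.s k') (D.t (D.yy c) k')) ↔
        (y.r b' (D.s k) ∧ ∀ k' < k.1, y.r (D.s k') (D.t (D.yy c) k')) :=
      ⟨fun h => ⟨y.trans (y.symm hb) h.1, h.2⟩, fun h => ⟨y.trans hb h.1, h.2⟩⟩
    by_cases h1 : (y.r b (D.s k) ∧ ∀ k' < k.1, y.r (D.s k') (D.t (D.yy c) k'))
    · rw [if_pos h1, if_pos (this.1 h1)]
    · rw [if_neg h1, if_neg fun h2 => h1 (this.2 h2)]
  | first c =>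
    rcases Nat.eq_zero_or_pos (3 * D.N) with h0 | h0
    · have h1 : pt c 0 (D.s 0) = Sum.inl (D.be c) := pt_ge c (by omega) _
      rw [h1]
      refine hφ c fun u v huv => ?_
      obtain ⟨k, h2, h3, -⟩ := D.hper (D.yy c) u v huv 0 (by omega)
      omega
    · rw [pr_lt y c h0, if_pos ⟨y.refl _, fun k' hk' => absurd hk' (Nat.not_lt_zero _)⟩]
      exact z.refl _
  | next c k hk =>
    rw [pr_lt y c hk]
    rcases Nat.lt_or_ge (k + 1) (3 * D.N) with h1 | h1
    · rw [pr_lt y c h1]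
      have : (y.r (D.t (D.yy c) k) (D.s k) ∧ ∀ k' < k, y.r (D.s k') (D.t (D.yy c) k')) ↔
          (y.r (D.s (k + 1)) (D.s (k + 1)) ∧ ∀ k' < k + 1, y.r (D.s k') (D.t (D.yy c) k')) := by
        constructor
        · rintro ⟨h2, h3⟩
          refine ⟨y.refl _, fun k' hk' => ?_⟩
          rcases Nat.lt_or_ge k' k with h4 | h4
          · exact h3 k' h4
          · have : k' = k := by omega
            subst this
            exact y.symm h2
        · rintro ⟨-, h3⟩
          exact ⟨y.symm (h3 k (by omega)), fun k' hk' => h3 k' (by omega)⟩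
      by_cases h2 : (y.r (D.t (D.yy c) k) (D.s k) ∧ ∀ k' < k, y.r (D.s k') (D.t (D.yy c) k'))
      · rw [if_pos h2, if_pos (this.1 h2)]
      · rw [if_neg h2, if_neg fun h3 => h2 (this.2 h3)]
    · rw [pt_ge c h1]
      show z.r _ (D.be c)
      split_ifs with h2
      · refine hφ c fun u v huv => ?_
        obtain ⟨k', h3, h4, rfl, rfl⟩ := D.hper (D.yy c) u v huv 0 (by omega)
        rcases Nat.lt_or_ge k' k with h5 | h5
        · exact h2.2 k' h5
        · have : k' = k := by omega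
          subst this
          exact y.symm h2.1
      · exact z.refl _

end

/-- There is a periodic sequence of pairs which contains all pairs of every equivalence in every period. -/
theorem exists_types (B : Type) [Finite B] [Nonempty B] :
    ∃ (N : ℕ) (s : ℕ → B) (t : Setoid B → ℕ → B), 0 < N ∧
      (∀ (y : Setoid B) (k : ℕ), y.r (s k) (t y k)) ∧
      ∀ (y : Setoid B) (u v : B), y.r u v → ∀ m < 3, ∃ k, m * N ≤ k ∧ k < (m + 1) * N ∧ s k = u ∧ t y k = v := by
  classical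
  obtain ⟨N, ⟨e⟩⟩ := Finite.exists_equiv_fin (B × B)
  have hN : 0 < N := by
    rcases Nat.eq_zero_or_pos N with h | h
    · subst h
      exact (e (Classical.arbitrary _)).elim0
    · exact h
  let p : ℕ → B × B := fun k => e.symm ⟨k % N, Nat.mod_lt _ hN⟩
  refine ⟨N, fun k => (p k).1, fun y k => if y.r (p k).1 (p k).2 then (p k).2 else (p k).1, hN, ?_, ?_⟩
  · intro y k
    show y.r (p k).1 (if y.r (p k).1 (p k).2 then (p k).2 else (p k).1)
    split_ifs with h
    · exact h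
    · exact y.refl _
  · intro y u v huv m _
    have h1 : (m * N + (e (u, v)).1) % N = (e (u, v)).1 := by
      rw [Nat.add_comm, Nat.add_mul_mod_self_right, Nat.mod_eq_of_lt (e (u, v)).2]
    have h2 : p (m * N + (e (u, v)).1) = (u, v) := by
      show e.symm ⟨(m * N + (e (u, v)).1) % N, _⟩ = (u, v)
      have : (⟨(m * N + (e (u, v)).1) % N, Nat.mod_lt _ hN⟩ : Fin N) = e (u, v) := Fin.ext h1
      rw [this, Equiv.symm_apply_apply]
    refine ⟨m * N + (e (u, v)).1, by omega, ?_, ?_, ?_⟩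
    · have := (e (u, v)).2
      rw [Nat.succ_mul]
      omega
    · show (p _).1 = u
      rw [h2]
    · show (if y.r (p _).1 (p _).2 then (p _).2 else (p _).1) = v
      rw [h2, if_pos huv]

/-- The congruences of a unary algebra. -/
abbrev Cong (B : Type) (F : Set (B → B)) : Type :=
  {r : Setoid B // ∀ f ∈ F, ∀ x y : B, r.r x y → r.r (f x) (f y)}

/-- Representation by the compatible equivalences above a given one. -/
theorem quot_iso {P : Type} [LE P] (Y : Type) (Θ₀ : Setoid Y) (M : Set (Y → Y))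
    (hM : ∀ f ∈ M, ∀ x y, Θ₀.r x y → Θ₀.r (f x) (f y))
    (e : P ≃o {r : Setoid Y // Θ₀ ≤ r ∧ ∀ f ∈ M, ∀ x y, r.r x y → r.r (f x) (f y)}) :
    ∃ (ops : Set (Quotient Θ₀ → Quotient Θ₀)) (e' : P ≃o Cong (Quotient Θ₀) ops),
      ∀ p x y, (e' p).1.r (Quotient.mk Θ₀ x) (Quotient.mk Θ₀ y) ↔ (e p).1.r x y := by
  classical
  let ops : Set (Quotient Θ₀ → Quotient Θ₀) :=
    {g | ∃ (f : Y → Y) (hf : f ∈ M), g = Quotient.map f (hM f hf)}
  let c : Cong (Quotient Θ₀) ops → {r : Setoid Y // Θ₀ ≤ r ∧ ∀ f ∈ M, ∀ x y, r.r x y → r.r (f x) (f y)} :=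
    fun R => ⟨R.1.comap (Quotient.mk Θ₀), fun x y h => by
        show R.1.r (Quotient.mk Θ₀ x) (Quotient.mk Θ₀ y)
        rw [Quotient.sound h],
      fun f hf x y h => R.2 _ ⟨f, hf, rfl⟩ _ _ h⟩
  have hc : ∀ R R', c R ≤ c R' ↔ R ≤ R' := by
    intro R R'
    constructor
    · intro h a b
      refine Quotient.inductionOn₂ a b fun x y hxy => ?_
      exact h hxy
    · intro h x y hxy
      exact h hxy
  have hinj : Function.Injective c := by
    intro π ρ h
    exact le_antisymm ((hc π ρ).1 h.le) ((hc ρ π).1 h.ge)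
  have hsurj : Function.Surjective c := by
    rintro ⟨r, hr, hr'⟩
    let g : Quotient Θ₀ → Quotient r := Quotient.map' id fun x y h => hr h
    have hg : ∀ x y : Y, g (Quotient.mk Θ₀ x) = g (Quotient.mk Θ₀ y) ↔ r.r x y := by
      intro x y
      show (Quotient.mk r x) = (Quotient.mk r y) ↔ _
      exact Quotient.eq
    have hcomp : ∀ o ∈ ops, ∀ a b, (Setoid.ker g).r a b → (Setoid.ker g).r (o a) (o b) := by
      rintro o ⟨f, hf, rfl⟩ a b
      refine Quotient.inductionOn₂ a b fun x y hxy => ?_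
      exact (hg _ _).2 (hr' f hf x y ((hg x y).1 hxy))
    refine ⟨⟨Setoid.ker g, hcomp⟩, Subtype.ext (Setoid.ext fun x y => ?_)⟩
    exact hg x y
  let i : Cong (Quotient Θ₀) ops ≃o
      {r : Setoid Y // Θ₀ ≤ r ∧ ∀ f ∈ M, ∀ x y, r.r x y → r.r (f x) (f y)} :=
    { toEquiv := Equiv.ofBijective c ⟨hinj, hsurj⟩
      map_rel_iff' := by
        intro x y
        exact hc x y }
  refine ⟨ops, e.trans i.symm, fun p x y => ?_⟩
  have h1 : i (i.symm (e p)) = e p := i.apply_symm_apply (e p)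
  have h2 : (c (i.symm (e p))).1.r x y ↔ (e p).1.r x y := by
    have h3 : c (i.symm (e p)) = e p := h1
    rw [h3]
  exact h2

/-- Representation by the compatible equivalences above a given one. -/
theorem rep_quot {P : Type} [LE P] (Y : Type) [Finite Y] [Nonempty Y] (Θ₀ : Setoid Y) (M : Set (Y → Y))
    (hM : ∀ f ∈ M, ∀ x y, Θ₀.r x y → Θ₀.r (f x) (f y))
    (e : P ≃o {r : Setoid Y // Θ₀ ≤ r ∧ ∀ f ∈ M, ∀ x y, r.r x y → r.r (f x) (f y)}) :
    Representable P := by
  obtain ⟨ops, e', -⟩ := quot_iso Y Θ₀ M hM e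
  have : Nonempty (Quotient Θ₀) := ⟨Quotient.mk Θ₀ (Classical.arbitrary Y)⟩
  exact rep_unary _ ops e'

instance finite_setoid (Y : Type) [Finite Y] : Finite (Setoid Y) :=
  Finite.of_injective (fun r : Setoid Y => r.r) fun _ _ h => Setoid.ext fun a b =>
    Iff.of_eq (congrFun (congrFun h a) b)

/-- The semidirect product of two congruence lattices is a congruence lattice of an algebra which contains
`B` in such a way that the restriction to `B` is the first coordinate. -/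
theorem semi_core' {A B : Type} [Finite A] [Finite B] [Nonempty A] [Nonempty B] (F : Set (B → B))
    (G : Set (A → A)) (H : Set (A → B)) (φ : Cong B F → Cong A G) (hφ : Monotone φ)
    (hH : ∀ y, ∀ h ∈ H, ∀ a a', (φ y).1.r a a' → y.1.r (h a) (h a')) :
    ∃ (Y : Type) (_ : Finite Y) (_ : Nonempty Y) (ops : Set (Y → Y))
      (e : {yz : Cong B F × Cong A G //
        φ yz.1 ≤ yz.2 ∧ ∀ h ∈ H, ∀ a a', yz.2.1.r a a' → yz.1.1.r (h a) (h a')} ≃o Cong Y ops)
      (ι₀ : B → Y), ∀ p b b', (e p).1.r (ι₀ b) (ι₀ b') ↔ p.1.1.1.r b b' := by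
  classical
  obtain ⟨N, s, t, hN, hst, hper⟩ := exists_types B
  let D : Dat A B :=
    { C := {c : Cong B F × A × A // (φ c.1).1.r c.2.1 c.2.2}
      yy := fun c => c.1.1.1
      al := fun c => c.1.2.1
      be := fun c => c.1.2.2
      N := N, s := s, t := t, hst := hst, hper := hper }
  have hDN : D.N = N := rfl
  set L : Type := {yz : Cong B F × Cong A G //
      φ yz.1 ≤ yz.2 ∧ ∀ h ∈ H, ∀ a a', yz.2.1.r a a' → yz.1.1.r (h a) (h a')} with hL
  have hfinC : Finite D.C := inferInstanceAs (Finite {c : Cong B F × A × A // (φ c.1).1.r c.2.1 c.2.2})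
  let M : Set (X D → X D) := {f | (∀ x x', (E ⊥ ⊥).r x x' → (E ⊥ ⊥).r (f x) (f x')) ∧
    ∀ p : L, ∀ x x', (E p.1.1.1 p.1.2.1).r x x' → (E p.1.1.1 p.1.2.1).r (f x) (f x')}
  -- the reference copy
  let a0 : A := Classical.arbitrary A
  have htop : ∀ f ∈ F, ∀ x y : B, (⊤ : Setoid B).r x y → (⊤ : Setoid B).r (f x) (f y) :=
    fun _ _ _ _ _ => trivial
  let c0 : D.C := ⟨(⟨⊤, htop⟩, a0, a0), (φ _).1.refl a0⟩
  obtain ⟨i0, h01, h02, h03, h04⟩ := exists_rev c0 0 1 (by omega)
  have hRv : Rv c0 0 i0 := by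
    refine ⟨?_, ?_, h03.symm, h04.symm⟩
    · rw [hDN] at h01
      omega
    · rw [hDN] at h02 ⊢
      omega
  have hr0 : ∀ b, rt c0 0 i0 (pt c0 0 b) = b := by
    intro b
    rw [rt_pt c0 hRv b (by omega), V_e]
  have hpos : 0 < 3 * D.N := by rw [hDN]; omega
  -- the end of a chain
  have hend : ∀ p : L, ∀ c : D.C, D.yy c ≤ p.1.1.1 → p.1.2.1.r (D.al c) (D.be c) := by
    intro p c hc
    have h1 : φ c.1.1 ≤ φ p.1.1 := hφ hc
    exact (h1.trans p.2.1) c.2
  -- the order embedding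
  have hEr : ∀ (y y' : Setoid B) (z z' : Setoid A), E (D := D) y z ≤ E y' z' → y ≤ y' := by
    intro y y' z z' h b b' hb
    have h1 := h (E_copy (z := z) c0 0 hb)
    have h2 := E_map (D := D) y' (rt c0 0 i0) (rt_gen (z := z') c0 hRv) h1
    rwa [hr0, hr0] at h2
  have hEz : ∀ (p : L) (a a' : A), (E p.1.1.1 p.1.2.1).r (Sum.inl a : X D) (Sum.inl a') →
      p.1.2.1.r a a' := by
    intro p a a' h
    exact E_map (D := D) p.1.2.1 (pr p.1.1.1) (pr_gen (hend p)) h
  -- operations through `B`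
  have hmem : ∀ g : X D → B, (∀ x x', Gen ⊥ ⊥ x x' → g x = g x') →
      (∀ p : L, ∀ x x', Gen p.1.1.1 p.1.2.1 x x' → p.1.1.1.r (g x) (g x')) →
      ∀ (c : D.C) (k : ℕ), (fun x => pt c k (g x)) ∈ M := by
    intro g h1 h2 c k
    constructor
    · intro x x' h
      refine E_map (E ⊥ ⊥) (fun x => pt c k (g x)) (fun x x' hx => ?_) h
      rw [h1 x x' hx]
    · intro p x x' h
      refine E_map (E p.1.1.1 p.1.2.1) (fun x => pt c k (g x)) (fun x x' hx => ?_) h
      exact E_copy c k (h2 p x x' hx)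
  have hmr : ∀ (c : D.C) (i i' : ℕ), Rv c i i' → ∀ (d : D.C) (k : ℕ), (fun x => pt d k (rt c i i' x)) ∈ M := by
    intro c i i' h d k
    exact hmem _ (fun x x' hx => rt_gen (y := ⊥) c h x x' hx) (fun p x x' hx => rt_gen c h x x' hx) d k
  have hmf : ∀ f ∈ F, (fun x => pt c0 0 (f (rt c0 0 i0 x))) ∈ M := by
    intro f hf
    refine hmem (fun x => f (rt c0 0 i0 x)) ?_ ?_ c0 0
    · intro x x' hx
      have h1 : rt c0 0 i0 x = rt c0 0 i0 x' := rt_gen (y := ⊥) c0 hRv x x' hx
      rw [h1]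
    · intro p x x' hx
      exact p.1.1.2 f hf _ _ (rt_gen c0 hRv x x' hx)
  have hmh : ∀ h ∈ H, ∃ κ : D.C → ℕ, (fun x => pt c0 0 (ht h κ x)) ∈ M := by
    intro h hh
    have h1 : ∀ c : D.C, ∃ k, k < 3 * D.N ∧ D.s k = h (D.al c) ∧ D.t (D.yy c) k = h (D.be c) := by
      intro c
      obtain ⟨k, -, h3, h4, h5⟩ := D.hper (D.yy c) (h (D.al c)) (h (D.be c)) (hH c.1.1 h hh _ _ c.2) 0
        (by omega)
      exact ⟨k, by omega, h4, h5⟩
    choose κ hκ using h1
    refine ⟨κ, hmem _ ?_ ?_ c0 0⟩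
    · intro x x' hx
      refine ht_gen h κ hκ (y := ⊥) ?_ x x' hx
      intro a a' haa
      have : a = a' := haa
      rw [this]
    · intro p x x' hx
      exact ht_gen h κ hκ (p.2.2 h hh) x x' hx
  have hmp : ∀ q ∈ G, ∃ σ : D.C → D.C, pe q σ ∈ M := by
    intro q hq
    let σ : D.C → D.C := fun c => ⟨(c.1.1, q c.1.2.1, q c.1.2.2), (φ c.1.1).2 q hq _ _ c.2⟩
    have hσ : ∀ c, D.yy (σ c) = D.yy c ∧ D.al (σ c) = q (D.al c) ∧ D.be (σ c) = q (D.be c) :=
      fun c => ⟨rfl, rfl, rfl⟩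
    refine ⟨σ, ?_, ?_⟩
    · intro x x' h
      refine E_map (E ⊥ ⊥) (pe q σ) (pe_gen q σ hσ ?_) h
      intro a a' haa
      have : a = a' := haa
      rw [this]
    · intro p x x' h
      exact E_map (E p.1.1.1 p.1.2.1) (pe q σ) (pe_gen q σ hσ (p.1.2.2 q hq)) h
  -- the isomorphism
  let e : L → {r : Setoid (X D) // E ⊥ ⊥ ≤ r ∧ ∀ f ∈ M, ∀ x y, r.r x y → r.r (f x) (f y)} :=
    fun p => ⟨E p.1.1.1 p.1.2.1, E_mono bot_le bot_le, fun f hf x y h => hf.2 p x y h⟩
  have he : ∀ p q : L, e p ≤ e q ↔ p ≤ q := by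
    intro p q
    constructor
    · intro h
      refine ⟨hEr _ _ _ _ h, ?_⟩
      intro a a' haa
      exact hEz q a a' (h (E_of (.base haa)))
    · intro h
      exact E_mono h.1 h.2
  have hinj : Function.Injective e := by
    intro p q h
    exact le_antisymm ((he p q).1 h.le) ((he q p).1 h.ge)
  have hsurj : Function.Surjective e := by
    rintro ⟨Θ, hΘ0, hΘ⟩
    have hy : ∀ f ∈ F, ∀ b b' : B, (Θ.comap fun b => pt c0 0 b).r b b' →
        (Θ.comap fun b => pt c0 0 b).r (f b) (f b') := by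
      intro f hf b b' h
      have h1 := hΘ _ (hmf f hf) _ _ h
      simp only [hr0] at h1
      exact h1
    have hz : ∀ q ∈ G, ∀ a a' : A, (Θ.comap fun a => (Sum.inl a : X D)).r a a' →
        (Θ.comap fun a => (Sum.inl a : X D)).r (q a) (q a') := by
      intro q hq a a' h
      obtain ⟨σ, hσ⟩ := hmp q hq
      exact hΘ _ hσ _ _ h
    let y : Cong B F := ⟨Θ.comap fun b => pt c0 0 b, hy⟩
    let z : Cong A G := ⟨Θ.comap fun a => (Sum.inl a : X D), hz⟩
    have hle : E y.1 z.1 ≤ Θ := by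
      refine E_le fun x x' hx => ?_
      cases hx with
      | base h => exact h
      | copy c k h =>
        have h1 := hΘ _ (hmr c0 0 i0 hRv c k) _ _ h
        simp only [hr0] at h1
        rwa [pt_lt c k.2, pt_lt c k.2] at h1
      | first c => exact hΘ0 (E_of (.first c))
      | next c k hk => exact hΘ0 (E_of (.next c k hk))
    have hge : Θ ≤ E y.1 z.1 := by
      intro w w' hw
      have hQ : ∀ c i i', Rv c i i' → y.1.r (rt c i i' w) (rt c i i' w') := by
        intro c i i' h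
        exact hΘ _ (hmr c i i' h c0 0) _ _ hw
      rcases separation z.1 w w' hQ with h | ⟨⟨a, ha⟩, ⟨a', ha'⟩⟩
      · exact h
      · have h1 : Θ.r (Sum.inl a) (Sum.inl a') := Θ.trans (Θ.symm (hle ha)) (Θ.trans hw (hle ha'))
        exact (E y.1 z.1).trans ha ((E y.1 z.1).trans (E_of (.base h1)) ((E y.1 z.1).symm ha'))
    have h1 : φ y ≤ z := by
      intro a a' haa
      let c : D.C := ⟨(y, a, a'), haa⟩
      have h2 := E_left (y := y.1) (z := z.1) c (3 * D.N) le_rfl fun k _ => D.hst y.1 k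
      rw [pt_ge c le_rfl] at h2
      exact hle h2
    have h2 : ∀ h ∈ H, ∀ a a', z.1.r a a' → y.1.r (h a) (h a') := by
      intro h hh a a' haa
      obtain ⟨κ, hκ⟩ := hmh h hh
      exact hΘ _ hκ _ _ haa
    refine ⟨⟨(y, z), h1, h2⟩, Subtype.ext (le_antisymm hle hge)⟩
  have hne : Nonempty (X D) := ⟨Sum.inl a0⟩
  let i : L ≃o {r : Setoid (X D) // E ⊥ ⊥ ≤ r ∧ ∀ f ∈ M, ∀ x y, r.r x y → r.r (f x) (f y)} :=
    { toEquiv := Equiv.ofBijective e ⟨hinj, hsurj⟩
      map_rel_iff' := by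
        intro x y
        exact he x y }
  obtain ⟨ops, e', he'⟩ := quot_iso (X D) (E ⊥ ⊥) M (fun f hf => hf.1) i
  refine ⟨Quotient (E (D := D) ⊥ ⊥), inferInstance, ⟨Quotient.mk _ (Sum.inl a0)⟩, ops, e',
    fun b => Quotient.mk _ (pt c0 0 b), fun p b b' => ?_⟩
  rw [he' p]
  show (E p.1.1.1 p.1.2.1).r (pt c0 0 b) (pt c0 0 b') ↔ _
  constructor
  · intro h
    have h2 := E_map (D := D) p.1.1.1 (rt c0 0 i0) (rt_gen (z := p.1.2.1) c0 hRv) h
    rwa [hr0, hr0] at h2
  · intro h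
    exact E_copy (z := p.1.2.1) c0 0 h

/-- The semidirect product of two congruence lattices is a congruence lattice. -/
theorem semi_core {A B : Type} [Finite A] [Finite B] [Nonempty A] [Nonempty B] (F : Set (B → B))
    (G : Set (A → A)) (H : Set (A → B)) (φ : Cong B F → Cong A G) (hφ : Monotone φ)
    (hH : ∀ y, ∀ h ∈ H, ∀ a a', (φ y).1.r a a' → y.1.r (h a) (h a')) :
    Representable {yz : Cong B F × Cong A G //
      φ yz.1 ≤ yz.2 ∧ ∀ h ∈ H, ∀ a a', yz.2.1.r a a' → yz.1.1.r (h a) (h a')} := by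
  obtain ⟨Y, h1, h2, ops, e, -, -⟩ := semi_core' F G H φ hφ hH
  exact rep_unary Y ops e

end Pool.Agent.Helper97.DB
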