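import Pool.Agent.Helper97.DB.Semi

/-!
# Many-sorted unary algebras

The lattice of the compatible families of equivalences of a many-sorted unary algebra is representable.
-/

set_option autoImplicit false

namespace Pool.Agent.Helper97.DB

open Pool.Agent.H33WL Pool.Agent.Helper71.SL

/-- The equivalence on `ι × B` of a family of equivalences; the points `(i, g)` are glued. -/
def Es {ι B : Type} (g : B) (k : ι → Setoid B) : Setoid (ι × B) where
  r w w' := (w.1 = w'.1 ∧ (k w.1).r w.2 w'.2) ∨ ((k w.1).r w.2 g ∧ (k w'.1).r w'.2 g)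
  iseqv := by
    refine ⟨fun w => Or.inl ⟨rfl, (k w.1).refl _⟩, ?_, ?_⟩
    · rintro ⟨i, b⟩ ⟨j, b'⟩ (⟨h1, h2⟩ | ⟨h1, h2⟩)
      · simp only at h1 h2
        subst h1
        exact Or.inl ⟨rfl, (k i).symm h2⟩
      · exact Or.inr ⟨h2, h1⟩
    · rintro ⟨i, b⟩ ⟨j, b'⟩ ⟨l, b''⟩ (⟨h1, h2⟩ | ⟨h1, h2⟩) (⟨h3, h4⟩ | ⟨h3, h4⟩)
      · simp only at h1 h2 h3 h4
        subst h1
        subst h3
        exact Or.inl ⟨rfl, (k i).trans h2 h4⟩
      · simp only at h1 h2 h3 h4
        subst h1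
        exact Or.inr ⟨(k i).trans h2 h3, h4⟩
      · simp only at h1 h2 h3 h4
        subst h3
        exact Or.inr ⟨h1, (k j).trans ((k j).symm h4) h2⟩
      · exact Or.inr ⟨h1, h4⟩

theorem rep_sorted {ι B : Type} [Finite ι] [Nonempty ι] [Finite B] [Nonempty B]
    (H : ι → ι → Set (B → B)) :
    Representable {k : ι → Setoid B // ∀ i j, ∀ h ∈ H i j, ∀ u v, (k i).r u v → (k j).r (h u) (h v)} := by
  classical
  let g : B := Classical.arbitrary B
  let M : Set (ι × B → ι × B) := {f | ∃ (i j : ι) (h : B → B), (h ∈ H i j ∨ (i = j ∧ h = id)) ∧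
    f = fun w => if w.1 = i then (j, h w.2) else (j, h g)}
  have hbot : ∀ w w' : ι × B, (Es g (⊥ : ι → Setoid B)).r w w' → w = w' ∨ (w.2 = g ∧ w'.2 = g) := by
    rintro ⟨i, b⟩ ⟨j, b'⟩ (⟨h1, h2⟩ | ⟨h1, h2⟩)
    · left
      exact Prod.ext h1 h2
    · exact Or.inr ⟨h1, h2⟩
  have hM : ∀ f ∈ M, ∀ x y, (Es g (⊥ : ι → Setoid B)).r x y → (Es g (⊥ : ι → Setoid B)).r (f x) (f y) := by
    rintro _ ⟨i, j, h, -, rfl⟩ w w' hw
    rcases hbot w w' hw with h1 | ⟨h1, h2⟩
    · rw [h1]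
    · have h3 : ∀ w : ι × B, w.2 = g → (if w.1 = i then (j, h w.2) else (j, h g)) = (j, h g) := by
        intro w hw
        split_ifs
        · rw [hw]
        · rfl
      show (Es g (⊥ : ι → Setoid B)).r (if w.1 = i then (j, h w.2) else (j, h g))
        (if w'.1 = i then (j, h w'.2) else (j, h g))
      rw [h3 w h1, h3 w' h2]
  have hEs : ∀ k : ι → Setoid B, (∀ i j, ∀ h ∈ H i j, ∀ u v, (k i).r u v → (k j).r (h u) (h v)) →
      ∀ f ∈ M, ∀ x y, (Es g k).r x y → (Es g k).r (f x) (f y) := by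
    rintro k hk _ ⟨i, j, h, hh, rfl⟩ ⟨a, b⟩ ⟨a', b'⟩ hw
    have hk' : ∀ u v, (k i).r u v → (k j).r (h u) (h v) := by
      rcases hh with hh | ⟨rfl, rfl⟩
      · exact hk i j h hh
      · exact fun u v h => h
    show (Es g k).r (if a = i then (j, h b) else (j, h g)) (if a' = i then (j, h b') else (j, h g))
    rcases hw with ⟨h1, h2⟩ | ⟨h1, h2⟩
    · simp only at h1 h2
      subst h1
      by_cases h3 : a = i
      · subst h3
        rw [if_pos rfl, if_pos rfl]
        exact Or.inl ⟨rfl, hk' _ _ h2⟩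
      · rw [if_neg h3, if_neg h3]
    · simp only at h1 h2
      have h3 : ∀ a b, (k a).r b g → (k j).r (if a = i then (j, h b) else (j, h g)).2 (h g) := by
        intro a b hab
        split_ifs with h4
        · subst h4
          exact hk' _ _ hab
        · exact (k j).refl _
      have h4 : ∀ a b, (if a = i then (j, h b) else (j, h g)).1 = j := by
        intro a b
        split_ifs <;> rfl
      refine Or.inl ⟨?_, ?_⟩
      · rw [h4, h4]
      · rw [h4]
        exact (k j).trans (h3 a b h1) ((k j).symm (h3 a' b' h2))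
  let K : Type := {k : ι → Setoid B // ∀ i j, ∀ h ∈ H i j, ∀ u v, (k i).r u v → (k j).r (h u) (h v)}
  let e : K → {r : Setoid (ι × B) // Es g (⊥ : ι → Setoid B) ≤ r ∧ ∀ f ∈ M, ∀ x y, r.r x y →
      r.r (f x) (f y)} := fun k => ⟨Es g k.1, by
        intro w w' hw
        rcases hbot w w' hw with h1 | ⟨h1, h2⟩
        · rw [h1]
        · refine Or.inr ⟨?_, ?_⟩
          · rw [h1]
          · rw [h2], hEs k.1 k.2⟩
  have he : ∀ k k' : K, e k ≤ e k' ↔ k ≤ k' := by
    intro k k'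
    constructor
    · intro h i b b' hb
      have h1 : (Es g k'.1).r (i, b) (i, b') := h (Or.inl ⟨rfl, hb⟩ : (Es g k.1).r (i, b) (i, b'))
      rcases h1 with ⟨-, h1⟩ | ⟨h1, h2⟩
      · exact h1
      · exact (k'.1 i).trans h1 ((k'.1 i).symm h2)
    · intro h w w' hw
      rcases hw with ⟨h1, h2⟩ | ⟨h1, h2⟩
      · exact Or.inl ⟨h1, h _ h2⟩
      · exact Or.inr ⟨h _ h1, h _ h2⟩
  have hei : Function.Injective e := by
    intro y y' h
    exact le_antisymm ((he y y').1 h.le) ((he y' y).1 h.ge)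
  have hes : Function.Surjective e := by
    rintro ⟨Θ, hΘ0, hΘ⟩
    let k : ι → Setoid B := fun i => Θ.comap fun b => (i, b)
    have hk : ∀ i j, ∀ h ∈ H i j, ∀ u v, (k i).r u v → (k j).r (h u) (h v) := by
      intro i j h hh u v huv
      have h1 := hΘ _ ⟨i, j, h, Or.inl hh, rfl⟩ (i, u) (i, v) huv
      simp only [if_true] at h1
      exact h1
    have hg : ∀ i j, Θ.r (i, g) (j, g) := fun i j => hΘ0 (Or.inr ⟨(⊥ : Setoid B).refl _, (⊥ : Setoid B).refl _⟩)
    refine ⟨⟨k, hk⟩, Subtype.ext (Setoid.ext ?_)⟩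
    rintro ⟨i, b⟩ ⟨j, b'⟩
    constructor
    · rintro (⟨h1, h2⟩ | ⟨h1, h2⟩)
      · simp only at h1 h2
        subst h1
        exact h2
      · exact Θ.trans h1 (Θ.trans (hg i j) (Θ.symm h2))
    · intro h
      by_cases hij : i = j
      · subst hij
        exact Or.inl ⟨rfl, h⟩
      · refine Or.inr ⟨?_, ?_⟩
        · have h1 := hΘ _ ⟨i, i, id, Or.inr ⟨rfl, rfl⟩, rfl⟩ (i, b) (j, b') h
          simp only [if_true, if_neg (Ne.symm hij)] at h1
          exact h1
        · have h1 := hΘ _ ⟨j, j, id, Or.inr ⟨rfl, rfl⟩, rfl⟩ (i, b) (j, b') h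
          simp only [if_true, if_neg hij] at h1
          exact Θ.symm h1
  let i : K ≃o {r : Setoid (ι × B) // Es g (⊥ : ι → Setoid B) ≤ r ∧ ∀ f ∈ M, ∀ x y, r.r x y →
      r.r (f x) (f y)} :=
    { toEquiv := Equiv.ofBijective e ⟨hei, hes⟩
      map_rel_iff' := by
        intro x y
        exact he x y }
  exact rep_quot (ι × B) (Es g ⊥) M hM i

end Pool.Agent.Helper97.DB
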